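import Pool.Agent.N918.MS.Sep

/-! Metric sequences: functions with a large logarithmic derivative, powers of almost every number; the final form
(helper918). -/

set_option autoImplicit false

namespace Pool.Agent.N918.MS

open Finset MeasureTheory Filter
open scoped ENNReal Topology

/-- the density of the values of a function with a large logarithmic derivative -/
lemma steep_density {h : ℝ → ℝ} {A B c : ℝ} (hc : 0 < c)
    (hh : ∀ x ∈ Set.Icc A B, DifferentiableAt ℝ h x ∧ c * |h x| ≤ |deriv h x| ∧ 1 ≤ |h x|) (k : ℤ) :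
    (volume.restrict (Set.Icc A B)) {x : ℝ | ⌊h x⌋ = k} ≤ ENNReal.ofReal (3 / c / (|(k : ℝ)| + 1)) := by
  rw [Measure.restrict_apply' measurableSet_Icc]
  have key : ∀ x y : ℝ, x ∈ Set.Icc A B → y ∈ Set.Icc A B → ⌊h x⌋ = k → ⌊h y⌋ = k → x < y →
      y - x ≤ 3 / c / (|(k : ℝ)| + 1) := by
    intro x y hx hy hkx hky hxy
    rw [Int.floor_eq_iff] at hkx hky
    have hsub : Set.Icc x y ⊆ Set.Icc A B := Set.Icc_subset_Icc hx.1 hy.2
    have hder : ∀ z ∈ Set.Icc x y, HasDerivAt (fun t => Real.log (h t)) (deriv h z / h z) z := by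
      intro z hz
      have h1 := hh z (hsub hz)
      refine h1.1.hasDerivAt.log ?_
      intro h0
      have h2 := h1.2.2
      rw [h0, abs_zero] at h2
      linarith
    obtain ⟨z, hz, hz'⟩ := exists_hasDerivAt_eq_slope (fun t => Real.log (h t)) (fun t => deriv h t / h t) hxy
      (fun t ht => (hder t ht).continuousAt.continuousWithinAt) (fun t ht => hder t (Set.Ioo_subset_Icc_self ht))
    have h1 := hh z (hsub (Set.Ioo_subset_Icc_self hz))
    have hz1 : 0 < |h z| := by linarith [h1.2.2]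
    have h2 : c ≤ |deriv h z / h z| := by
      rw [abs_div, le_div_iff₀ hz1]
      exact h1.2.1
    have h3 : c * (y - x) ≤ |Real.log (h y) - Real.log (h x)| := by
      have h4 : |Real.log (h y) - Real.log (h x)| = |deriv h z / h z| * (y - x) := by
        have : 0 < y - x := by linarith
        rw [hz', abs_div, abs_of_pos this, div_mul_cancel₀ _ this.ne']
      rw [h4]
      exact mul_le_mul_of_nonneg_right h2 (by linarith)
    have hm : ∀ u v : ℝ, u ∈ Set.Icc A B → v ∈ Set.Icc A B → (k : ℝ) ≤ h u ∧ h u < k + 1 → (k : ℝ) ≤ h v ∧ h v < k + 1 →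
        Real.log (h v) - Real.log (h u) ≤ 3 / (|(k : ℝ)| + 1) := by
      intro u v hu hv hku hkv
      have hu1 : 1 ≤ |h u| := (hh u hu).2.2
      have hv1 : 1 ≤ |h v| := (hh v hv).2.2
      rw [← Real.log_abs (h v), ← Real.log_abs (h u), ← Real.log_div (by linarith) (by linarith)]
      have h5 : Real.log (|h v| / |h u|) ≤ |h v| / |h u| - 1 := Real.log_le_sub_one_of_pos (by positivity)
      have h6 : |h v| / |h u| - 1 ≤ 1 / |h u| := by
        have h7 : |h v| - |h u| ≤ 1 := by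
          have h8 := abs_sub_abs_le_abs_sub (h v) (h u)
          have h9 : |h v - h u| ≤ 1 := by
            rw [abs_le]
            constructor <;> linarith [hku.1, hku.2, hkv.1, hkv.2]
          linarith
        have h10 : |h v| / |h u| - 1 = (|h v| - |h u|) / |h u| := by
          rw [sub_div, div_self (by linarith)]
        rw [h10]
        exact div_le_div_of_nonneg_right h7 (by linarith)
      have h11 : 1 / |h u| ≤ 3 / (|(k : ℝ)| + 1) := by
        have h12 : |(k : ℝ)| ≤ |h u| + 1 := by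
          have h8 := abs_sub_abs_le_abs_sub (k : ℝ) (h u)
          have h9 : |(k : ℝ) - h u| ≤ 1 := by
            rw [abs_le]
            constructor <;> linarith [hku.1, hku.2]
          linarith
        rw [div_le_div_iff₀ (by linarith) (by positivity)]
        linarith
      linarith
    have h5 : |Real.log (h y) - Real.log (h x)| ≤ 3 / (|(k : ℝ)| + 1) := by
      rw [abs_sub_le_iff]
      exact ⟨hm x y hx hy hkx hky, hm y x hy hx hky hkx⟩
    rw [div_right_comm, le_div_iff₀ hc]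
    linarith
  refine (Real.volume_le_diam _).trans (Metric.ediam_le ?_)
  rintro x ⟨hx1, hx2⟩ y ⟨hy1, hy2⟩
  have h0 : (0 : ℝ) ≤ 3 / c / (|(k : ℝ)| + 1) := by positivity
  rw [edist_dist, Real.dist_eq]
  refine ENNReal.ofReal_le_ofReal ?_
  rcases lt_trichotomy x y with hxy | hxy | hxy
  · rw [abs_sub_comm, abs_of_pos (by linarith)]
    exact key x y hx2 hy2 hx1 hy1 hxy
  · rw [hxy, sub_self, abs_zero]
    exact h0
  · rw [abs_of_pos (by linarith)]
    exact key y x hy2 hx2 hy1 hx1 hxy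

/-- **Functions with a large logarithmic derivative.** -/
theorem steep_eventually {P : ℤ → Prop} (hP : AlmostAlways P) {A B c δ : ℝ} (hc : 0 < c) (hδ : 0 < δ) (h : ℕ → ℝ → ℝ)
    (hh : ∀ᶠ n : ℕ in atTop, ∀ x ∈ Set.Icc A B, DifferentiableAt ℝ (h n) x ∧ c * |h n x| ≤ |deriv (h n) x| ∧
      Real.exp ((n : ℝ) ^ δ) ≤ |h n x|) :
    ∀ᵐ x : ℝ, x ∈ Set.Icc A B → ∀ᶠ n in atTop, P ⌊h n x⌋ := by
  obtain ⟨n₀, hn₀⟩ := eventually_atTop.1 hh
  have hmono : ∀ n : ℕ, ∀ x ∈ Set.Icc A B, Real.exp ((n : ℝ) ^ δ) ≤ |h (n + n₀) x| := fun n x hx => by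
    refine le_trans (Real.exp_le_exp.2 ?_) (hn₀ (n + n₀) (by omega) x hx).2.2
    refine Real.rpow_le_rpow (Nat.cast_nonneg _) ?_ hδ.le
    exact_mod_cast Nat.le_add_right n n₀
  have h1 : ∀ᵐ x ∂(volume.restrict (Set.Icc A B)), ∀ᶠ n in atTop, P ⌊h (n + n₀) x⌋ := by
    refine random_eventually hP _ (fun n x => ⌊h (n + n₀) x⌋) (C := 3 / c) (half_pos hδ) (fun n k => ?_) ?_
    · refine steep_density hc (fun x hx => ?_) k
      have h2 := hn₀ (n + n₀) (by omega) x hx
      exact ⟨h2.1, h2.2.1, le_trans (Real.one_le_exp (by positivity)) (hmono n x hx)⟩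
    · have ht2 : Tendsto (fun n : ℕ => (n : ℝ) ^ (δ / 2)) atTop atTop :=
        (tendsto_rpow_atTop (half_pos hδ)).comp tendsto_natCast_atTop_atTop
      obtain ⟨n₁, hn₁⟩ := eventually_atTop.1 (ht2.eventually_ge_atTop 2)
      have hzero : ∀ n : ℕ, n ∉ range n₁ → (volume.restrict (Set.Icc A B))
          {x : ℝ | |((⌊h (n + n₀) x⌋ : ℤ) : ℝ)| < Real.exp ((n : ℝ) ^ (δ / 2))} = 0 := by
        intro n hn
        have hn' : n₁ ≤ n := not_lt.1 fun hlt => hn (Finset.mem_range.2 hlt)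
        rw [Measure.restrict_apply' measurableSet_Icc]
        have : {x : ℝ | |((⌊h (n + n₀) x⌋ : ℤ) : ℝ)| < Real.exp ((n : ℝ) ^ (δ / 2))} ∩ Set.Icc A B = ∅ := by
          rw [Set.eq_empty_iff_forall_notMem]
          rintro x ⟨hx1, hx2⟩
          have h2 := hmono n x hx2
          have h3 : (2 : ℝ) ≤ (n : ℝ) ^ (δ / 2) := hn₁ n hn'
          have h4 : (n : ℝ) ^ δ = (n : ℝ) ^ (δ / 2) * (n : ℝ) ^ (δ / 2) := by
            rw [← Real.rpow_add_of_nonneg (Nat.cast_nonneg _) (half_pos hδ).le (half_pos hδ).le, add_halves]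
          have h5 : Real.exp ((n : ℝ) ^ (δ / 2)) + 1 ≤ Real.exp ((n : ℝ) ^ δ) := by
            have h6 : (n : ℝ) ^ (δ / 2) + 1 ≤ (n : ℝ) ^ δ := by
              rw [h4]
              nlinarith
            have h7 : Real.exp ((n : ℝ) ^ (δ / 2)) * 2 ≤ Real.exp ((n : ℝ) ^ δ) := by
              calc Real.exp ((n : ℝ) ^ (δ / 2)) * 2 ≤ Real.exp ((n : ℝ) ^ (δ / 2)) * Real.exp 1 := by
                    gcongr
                    have := Real.exp_one_gt_d9
                    linarith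
                _ = Real.exp ((n : ℝ) ^ (δ / 2) + 1) := (Real.exp_add _ _).symm
                _ ≤ _ := Real.exp_le_exp.2 h6
            have h8 : 1 ≤ Real.exp ((n : ℝ) ^ (δ / 2)) := Real.one_le_exp (by positivity)
            linarith
          have h9 : |((⌊h (n + n₀) x⌋ : ℤ) : ℝ)| < Real.exp ((n : ℝ) ^ (δ / 2)) := hx1
          have h10 : |h (n + n₀) x| ≤ |((⌊h (n + n₀) x⌋ : ℤ) : ℝ)| + 1 := by
            have h11 := abs_sub_abs_le_abs_sub (h (n + n₀) x) ((⌊h (n + n₀) x⌋ : ℤ) : ℝ)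
            have h12 : |h (n + n₀) x - ((⌊h (n + n₀) x⌋ : ℤ) : ℝ)| ≤ 1 := by
              rw [abs_le]
              constructor <;> linarith [Int.floor_le (h (n + n₀) x), Int.lt_floor_add_one (h (n + n₀) x)]
            linarith
          linarith
        rw [this, measure_empty]
      rw [tsum_eq_sum hzero]
      refine (ENNReal.sum_lt_top.2 fun n _ => ?_).ne
      refine lt_of_le_of_lt (measure_mono (Set.subset_univ _)) ?_
      rw [Measure.restrict_apply_univ, Real.volume_Icc]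
      exact ENNReal.ofReal_lt_top
  have h2 := (ae_restrict_iff' measurableSet_Icc).1 h1
  filter_upwards [h2] with x hx hx'
  obtain ⟨N, hN⟩ := eventually_atTop.1 (hx hx')
  refine eventually_atTop.2 ⟨N + n₀, fun n hn => ?_⟩
  have h3 := hN (n - n₀) (by omega)
  rwa [Nat.sub_add_cancel (by omega)] at h3

/-- **Powers.** -/
theorem power_eventually {P : ℤ → Prop} (hP : AlmostAlways P) {ξ : ℝ} (hξ : ξ ≠ 0) :
    ∀ᵐ x : ℝ, 1 < x → ∀ᶠ n : ℕ in atTop, P ⌊ξ * x ^ n⌋ := by
  have h1 : ∀ m : ℕ, ∀ᵐ x : ℝ, x ∈ Set.Icc (1 + 1 / ((m : ℝ) + 1)) (m + 1) → ∀ᶠ n : ℕ in atTop, P ⌊ξ * x ^ n⌋ := by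
    intro m
    set A : ℝ := 1 + 1 / ((m : ℝ) + 1) with hA
    have hm0 : (0 : ℝ) < 1 / ((m : ℝ) + 1) := by positivity
    have hA1 : 1 < A := by linarith
    have hm1 : (0 : ℝ) < (m : ℝ) + 1 := by positivity
    refine steep_eventually hP (c := 1 / ((m : ℝ) + 1)) (δ := 1 / 2) (by positivity) (by norm_num)
      (fun n x => ξ * x ^ n) ?_
    have hlog : 0 < Real.log A := Real.log_pos hA1
    have ht : Tendsto (fun n : ℕ => (n : ℝ) ^ (1 / 2 : ℝ)) atTop atTop :=
      (tendsto_rpow_atTop (by norm_num)).comp tendsto_natCast_atTop_atTop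
    filter_upwards [eventually_ge_atTop 1, ht.eventually_ge_atTop (1 / Real.log A * (1 + |Real.log (|ξ|)|))] with n hn1 hn2
    intro x hx
    have hx0 : 0 < x := by linarith [hx.1]
    have hpow : HasDerivAt (fun x : ℝ => ξ * x ^ n) (ξ * (n * x ^ (n - 1))) x := (hasDerivAt_pow n x).const_mul ξ
    refine ⟨hpow.differentiableAt, ?_, ?_⟩
    · rw [hpow.deriv, abs_mul, abs_mul, abs_mul, abs_of_nonneg (pow_nonneg hx0.le n), abs_of_nonneg (pow_nonneg hx0.le (n - 1)),
        Nat.abs_cast]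
      have h2 : x ^ n = x ^ (n - 1) * x := by rw [← pow_succ, Nat.sub_add_cancel hn1]
      rw [h2]
      have h3 : (1 : ℝ) ≤ n := by exact_mod_cast hn1
      have h4 : 1 / ((m : ℝ) + 1) * x ≤ n := by
        rw [one_div, inv_mul_le_iff₀ hm1]
        nlinarith [hx.2]
      have h5 : 0 ≤ |ξ| * x ^ (n - 1) := by positivity
      calc 1 / ((m : ℝ) + 1) * (|ξ| * (x ^ (n - 1) * x)) = (|ξ| * x ^ (n - 1)) * (1 / ((m : ℝ) + 1) * x) := by ring
        _ ≤ (|ξ| * x ^ (n - 1)) * n := mul_le_mul_of_nonneg_left h4 h5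
        _ = |ξ| * (n * x ^ (n - 1)) := by ring
    · rw [abs_mul, abs_of_nonneg (pow_nonneg hx0.le n)]
      have hξ0 : 0 < |ξ| := abs_pos.2 hξ
      rw [← Real.exp_log hξ0, ← Real.exp_log (pow_pos hx0 n), ← Real.exp_add, Real.log_pow]
      refine Real.exp_le_exp.2 ?_
      set s : ℝ := (n : ℝ) ^ (1 / 2 : ℝ) with hs
      have hss : (n : ℝ) = s * s := by
        rw [hs, ← Real.rpow_add_of_nonneg (Nat.cast_nonneg _) (by norm_num) (by norm_num)]
        norm_num
      have hs1 : (1 : ℝ) ≤ s := Real.one_le_rpow (by exact_mod_cast hn1) (by norm_num)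
      have h6 : 1 + |Real.log (|ξ|)| ≤ s * Real.log A := by
        have h7 := hn2
        rw [one_div, inv_mul_le_iff₀ hlog] at h7
        linarith
      have h7 : Real.log A ≤ Real.log x := Real.log_le_log (by linarith) hx.1
      have h8 : -|Real.log (|ξ|)| ≤ Real.log |ξ| := neg_abs_le _
      have h9 : 0 ≤ |Real.log (|ξ|)| := abs_nonneg _
      have h10 : s * (s * Real.log A) ≤ (n : ℝ) * Real.log x := by
        rw [hss, mul_assoc]
        gcongr
      nlinarith
  filter_upwards [ae_all_iff.2 h1] with x hx hx1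
  obtain ⟨m₁, hm₁⟩ := exists_nat_ge x
  obtain ⟨m₂, hm₂⟩ := exists_nat_one_div_lt (sub_pos.2 hx1)
  refine hx (max m₁ m₂) ⟨?_, ?_⟩
  · have h2 : (1 : ℝ) / (((max m₁ m₂ : ℕ) : ℝ) + 1) ≤ 1 / ((m₂ : ℝ) + 1) := by
      refine one_div_le_one_div_of_le (by positivity) ?_
      have : ((m₂ : ℕ) : ℝ) ≤ ((max m₁ m₂ : ℕ) : ℝ) := by exact_mod_cast le_max_right m₁ m₂
      linarith
    linarith
  · have : ((m₁ : ℕ) : ℝ) ≤ ((max m₁ m₂ : ℕ) : ℝ) := by exact_mod_cast le_max_left m₁ m₂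
    linarith

/-- **Random integers and metric sequences.** The family `Good` of properties of integers, with ONE exceptional set of
probability (measure) zero for all members of the family, has the following properties.

* `random`: for random integers `X_n`, of any dependence, with `P (X_n = k) ≤ C / (|k| + 1)` and with `|X_n| ≥ exp (n ^ δ)`
  except for events of summable probabilities, all but finitely many `X_n` are good;
* `density`: for random integers `X_n`, of any dependence, with `P (X_n = k) ≤ C / (|k| + 1)` and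
  `∑_{n < N} P (|X_n| < N ^ δ) ≤ C N ^ (1 - δ)`, all but `N / (log N) ^ U` of the `X_n`, `n < N`, are good, for all `U`;
* `linear`: for linear forms `a_n` in `d` variables with norms at least `exp (n ^ δ)`, for almost all vectors `α`, all but
  finitely many `⌊a_n (α)⌋` are good;
* `steep`: for functions `h_n` with `|h_n'| ≥ c |h_n|` and `|h_n| ≥ exp (n ^ δ)` on an interval, for almost all `x` in it, all
  but finitely many `⌊h_n (x)⌋` are good;
* `power`: for `ξ ≠ 0`, for almost all `x > 1`, all but finitely many `⌊ξ x ^ n⌋` are good;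
* `separated`: for real numbers `a_0, a_1, …` with mutual distances at least `δ > 0`, in any order, for almost all real `α`, all
  but `N / (log N) ^ U` of the `⌊a_n α⌋`, `n < N`, are good, for all `U`. -/
structure RandomAndMetric {ι : Type} (Good : ι → ℤ → Prop) : Prop where
  random : ∀ (Ω : Type) [MeasurableSpace Ω] (μ : Measure Ω) [IsProbabilityMeasure μ] (X : ℕ → Ω → ℤ) (C δ : ℝ), 0 < δ →
    (∀ n, Measurable (X n)) → (∀ n (k : ℤ), μ {ω | X n ω = k} ≤ ENNReal.ofReal (C / (|(k : ℝ)| + 1))) →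
    ∑' n : ℕ, μ {ω | |(X n ω : ℝ)| < Real.exp ((n : ℝ) ^ δ)} ≠ ∞ → ∀ᵐ ω ∂μ, ∀ i, ∀ᶠ n in atTop, Good i (X n ω)
  density : ∀ (Ω : Type) [MeasurableSpace Ω] (μ : Measure Ω) [IsProbabilityMeasure μ] (X : ℕ → Ω → ℤ) (C δ : ℝ), 0 < δ →
    (∀ n, Measurable (X n)) → (∀ n (k : ℤ), μ {ω | X n ω = k} ≤ ENNReal.ofReal (C / (|(k : ℝ)| + 1))) →
    (∀ N : ℕ, ∑ n ∈ range N, μ {ω | |(X n ω : ℝ)| < (N : ℝ) ^ δ} ≤ ENNReal.ofReal (C * (N : ℝ) ^ (1 - δ))) →
    ∀ᵐ ω ∂μ, ∀ i, ∀ U : ℕ, ∀ᶠ N : ℕ in atTop, ({n : ℕ | n < N ∧ ¬ Good i (X n ω)}.ncard : ℝ) ≤ N / Real.log N ^ U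
  linear : ∀ (d : ℕ) (a : ℕ → Fin d → ℝ) (δ : ℝ), 0 < δ → (∀ᶠ n : ℕ in atTop, Real.exp ((n : ℝ) ^ δ) ≤ ‖a n‖) →
    ∀ᵐ α : Fin d → ℝ, ∀ i, ∀ᶠ n in atTop, Good i ⌊∑ j, a n j * α j⌋
  steep : ∀ (A B c δ : ℝ) (h : ℕ → ℝ → ℝ), 0 < c → 0 < δ → (∀ᶠ n : ℕ in atTop, ∀ x ∈ Set.Icc A B,
    DifferentiableAt ℝ (h n) x ∧ c * |h n x| ≤ |deriv (h n) x| ∧ Real.exp ((n : ℝ) ^ δ) ≤ |h n x|) →
    ∀ᵐ x : ℝ, x ∈ Set.Icc A B → ∀ i, ∀ᶠ n in atTop, Good i ⌊h n x⌋
  power : ∀ ξ : ℝ, ξ ≠ 0 → ∀ᵐ x : ℝ, 1 < x → ∀ i, ∀ᶠ n : ℕ in atTop, Good i ⌊ξ * x ^ n⌋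
  separated : ∀ (a : ℕ → ℝ) (δ : ℝ), 0 < δ → (∀ m n, m ≠ n → δ ≤ |a m - a n|) →
    ∀ᵐ α : ℝ, ∀ i, ∀ U : ℕ, ∀ᶠ N : ℕ in atTop, ({n : ℕ | n < N ∧ ¬ Good i ⌊a n * α⌋}.ncard : ℝ) ≤ N / Real.log N ^ U

/-- **The main tool**: countable families of sets with a saving of all powers of the logarithm. -/
theorem randomAndMetric {ι : Type} [Countable ι] (Good : ι → ℤ → Prop) (h : ∀ i, AlmostAlways (Good i)) :
    RandomAndMetric Good where
  random Ω _ μ _ X C δ hδ _ hX hs := ae_all_iff.2 fun i => random_eventually (h i) μ X hδ hX hs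
  density Ω _ μ _ X C δ hδ hm hX hs := ae_all_iff.2 fun i => random_density (h i) μ X hm hδ hX hs
  linear d a δ hδ ha := ae_all_iff.2 fun i => linear_eventually (h i) d a hδ ha
  steep A B c δ f hc hδ hf := by
    filter_upwards [ae_all_iff.2 fun i => steep_eventually (h i) hc hδ f hf] with x hx hx' i
    exact hx i hx'
  power ξ hξ := by
    filter_upwards [ae_all_iff.2 fun i => power_eventually (h i) hξ] with x hx hx' i
    exact hx i hx'
  separated a δ hδ ha := ae_all_iff.2 fun i => separated_density (h i) hδ ha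

end Pool.Agent.N918.MS
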