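import Mathlib

/-!
# Random integers and sets of integers with a saving of all powers of the logarithm (helper918)

A set of integers with at most `X / (log X) ^ U` elements of absolute value at most `X`, for all `U`, is avoided by
random integers `X_n` with `P (X_n = k) ≤ C / (|k| + 1)`, without any independence.
-/

set_option autoImplicit false

namespace Pool.Agent.N918.MS

open Finset MeasureTheory Filter
open scoped ENNReal Topology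

/-- the property `P` holds for all integers in `[-X, X]` with at most `X / (log X) ^ U` exceptions, for every `U`
and all large `X` -/
def AlmostAlways (P : ℤ → Prop) : Prop :=
  ∀ U : ℕ, ∃ X₀ : ℕ, ∀ X : ℕ, X₀ ≤ X → ({k : ℤ | k ∈ Set.Icc (-(X : ℤ)) X ∧ ¬ P k}.ncard : ℝ) ≤ X / Real.log X ^ U

lemma AlmostAlways.of_card {P : ℤ → Prop} [DecidablePred P]
    (h : ∀ U : ℕ, ∃ X₀ : ℕ, ∀ X : ℕ, X₀ ≤ X → (#{k ∈ Icc (-(X : ℤ)) X | ¬ P k} : ℝ) ≤ X / Real.log X ^ U) :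
    AlmostAlways P := by
  intro U
  obtain ⟨X₀, h₀⟩ := h U
  refine ⟨X₀, fun X hX => le_trans (le_of_eq ?_) (h₀ X hX)⟩
  have : {k : ℤ | k ∈ Set.Icc (-(X : ℤ)) X ∧ ¬ P k} = ↑({k ∈ Icc (-(X : ℤ)) X | ¬ P k} : Finset ℤ) := by
    ext k
    simp
  rw [this, Set.ncard_coe_finset]

/-- dyadic counts -/
lemma AlmostAlways.dyadic {P : ℤ → Prop} (h : AlmostAlways P) (V : ℕ) : ∃ K : ℝ, 0 ≤ K ∧ ∀ j : ℕ,
    ({k : ℤ | k ∈ Set.Icc (-((2 : ℤ) ^ (j + 1))) (2 ^ (j + 1)) ∧ ¬ P k}.ncard : ℝ) ≤ K * 2 ^ j / (j + 1) ^ V := by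
  obtain ⟨X₀, h₀⟩ := h V
  have hfin : ∀ j : ℕ, ({k : ℤ | k ∈ Set.Icc (-((2 : ℤ) ^ (j + 1))) (2 ^ (j + 1)) ∧ ¬ P k}.ncard : ℝ) ≤
      2 * 2 ^ (j + 1) + 1 := by
    intro j
    have h1 : {k : ℤ | k ∈ Set.Icc (-((2 : ℤ) ^ (j + 1))) (2 ^ (j + 1)) ∧ ¬ P k}.ncard ≤
        (Set.Icc (-((2 : ℤ) ^ (j + 1))) (2 ^ (j + 1))).ncard :=
      Set.ncard_le_ncard (fun k hk => hk.1) (Set.finite_Icc _ _)
    have h2 : (Set.Icc (-((2 : ℤ) ^ (j + 1))) (2 ^ (j + 1))).ncard = 2 * 2 ^ (j + 1) + 1 := by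
      rw [← Finset.coe_Icc, Set.ncard_coe_finset, Int.card_Icc]
      have : (2 : ℤ) ^ (j + 1) + 1 - -2 ^ (j + 1) = ((2 * 2 ^ (j + 1) + 1 : ℕ) : ℤ) := by push_cast; ring
      rw [this, Int.toNat_natCast]
    rw [h2] at h1
    exact_mod_cast h1
  set L : ℝ := Real.log 2 with hL
  have hL0 : 0 < L := Real.log_pos one_lt_two
  refine ⟨2 / L ^ V + 5 * (X₀ + 1) ^ V, by positivity, fun j => ?_⟩
  have hj : (0 : ℝ) < (j + 1) ^ V := by positivity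
  by_cases hX : X₀ ≤ 2 ^ (j + 1)
  · have h1 := h₀ (2 ^ (j + 1)) hX
    push_cast at h1
    refine h1.trans ?_
    rw [Real.log_pow, mul_pow]
    push_cast
    rw [div_le_div_iff₀ (by positivity) hj]
    have h3 : (2 : ℝ) ^ (j + 1) * (j + 1) ^ V = 2 / L ^ V * 2 ^ j * ((j + 1) ^ V * L ^ V) := by
      field_simp
      ring
    rw [h3]
    have : 0 ≤ 5 * ((X₀ : ℝ) + 1) ^ V := by positivity
    gcongr
    linarith
  · push Not at hX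
    have h2 : (j : ℝ) + 1 ≤ X₀ + 1 := by
      have : j + 1 < X₀ := lt_trans (Nat.lt_two_pow_self) hX
      have h4 : ((j + 1 : ℕ) : ℝ) ≤ X₀ := by exact_mod_cast this.le
      push_cast at h4
      linarith
    refine (hfin j).trans ?_
    rw [le_div_iff₀ hj]
    have h5 : ((j : ℝ) + 1) ^ V ≤ (X₀ + 1) ^ V := by gcongr
    have h6 : (2 : ℝ) * 2 ^ (j + 1) + 1 ≤ 5 * 2 ^ j := by
      have : (1 : ℝ) ≤ 2 ^ j := one_le_pow₀ one_le_two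
      rw [pow_succ]
      linarith
    calc (2 * 2 ^ (j + 1) + 1 : ℝ) * (j + 1) ^ V ≤ 5 * 2 ^ j * (X₀ + 1) ^ V := by gcongr
      _ = 5 * (X₀ + 1) ^ V * 2 ^ j := by ring
      _ ≤ _ := by
        have : 0 ≤ 2 / L ^ V := by positivity
        gcongr
        linarith

/-- **The tail estimate.** -/
theorem tail {P : ℤ → Prop} (h : AlmostAlways P) (V : ℕ) (C : ℝ) : ∃ K : ℝ, 0 ≤ K ∧ ∀ {Ω : Type} [MeasurableSpace Ω]
    (μ : Measure Ω) (X : Ω → ℤ), (∀ k : ℤ, μ {ω | X ω = k} ≤ ENNReal.ofReal (C / (|(k : ℝ)| + 1))) →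
    ∀ j₀ : ℕ, μ {ω | ¬ P (X ω) ∧ (2 : ℝ) ^ j₀ ≤ |(X ω : ℝ)|} ≤ ENNReal.ofReal (K / (j₀ + 1) ^ V) := by
  obtain ⟨K, hK0, hK⟩ := h.dyadic (V + 2)
  have hsum : Summable fun j : ℕ => 1 / ((j : ℝ) + 1) ^ 2 := by
    have := (summable_nat_add_iff 1).2 (Real.summable_one_div_nat_pow.2 (one_lt_two))
    simpa using this
  refine ⟨K * |C| * ∑' j : ℕ, 1 / ((j : ℝ) + 1) ^ 2, ?_, ?_⟩
  · have : 0 ≤ ∑' j : ℕ, 1 / ((j : ℝ) + 1) ^ 2 := tsum_nonneg fun j => by positivity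
    positivity
  intro Ω _ μ X hX j₀
  have hshell : ∀ j : ℕ, μ {ω | ¬ P (X ω) ∧ (2 : ℝ) ^ j ≤ |(X ω : ℝ)| ∧ |(X ω : ℝ)| < 2 ^ (j + 1)} ≤
      ENNReal.ofReal (K * |C| / (j + 1) ^ (V + 2)) := by
    intro j
    set S : Set ℤ := {k : ℤ | k ∈ Set.Icc (-((2 : ℤ) ^ (j + 1))) (2 ^ (j + 1)) ∧ ¬ P k} with hS
    have hSf : S.Finite := (Set.finite_Icc _ _).subset fun k hk => hk.1
    set S' : Finset ℤ := hSf.toFinset.filter (fun k => (2 : ℝ) ^ j ≤ |(k : ℝ)|) with hS'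
    have hsub : {ω | ¬ P (X ω) ∧ (2 : ℝ) ^ j ≤ |(X ω : ℝ)| ∧ |(X ω : ℝ)| < 2 ^ (j + 1)} ⊆ ⋃ k ∈ S', {ω | X ω = k} := by
      rintro ω ⟨h1, h2, h3⟩
      simp only [Set.mem_iUnion, Set.mem_ofPred_eq, exists_prop, exists_eq_right', hS', Finset.mem_filter,
        Set.Finite.mem_toFinset, hS, Set.mem_Icc]
      have h4 := abs_lt.1 h3
      refine ⟨⟨⟨?_, ?_⟩, h1⟩, h2⟩
      · have : ((-((2 : ℤ) ^ (j + 1)) : ℤ) : ℝ) ≤ (X ω : ℝ) := by push_cast; linarith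
        exact_mod_cast this
      · have : (X ω : ℝ) ≤ (((2 : ℤ) ^ (j + 1) : ℤ) : ℝ) := by push_cast; linarith
        exact_mod_cast this
    refine (measure_mono hsub).trans ((measure_biUnion_finset_le _ _).trans ?_)
    have h1 : ∀ k ∈ S', μ {ω | X ω = k} ≤ ENNReal.ofReal (|C| / 2 ^ j) := by
      intro k hk
      refine (hX k).trans (ENNReal.ofReal_le_ofReal ?_)
      have h2 : (2 : ℝ) ^ j ≤ |(k : ℝ)| := (Finset.mem_filter.1 hk).2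
      have h3 : (0 : ℝ) < 2 ^ j := by positivity
      calc C / (|(k : ℝ)| + 1) ≤ |C| / (|(k : ℝ)| + 1) := by
            gcongr
            exact le_abs_self C
        _ ≤ |C| / 2 ^ j := by
            gcongr
            linarith
    refine (Finset.sum_le_sum h1).trans ?_
    rw [Finset.sum_const, nsmul_eq_mul, ← ENNReal.ofReal_natCast, ← ENNReal.ofReal_mul (Nat.cast_nonneg _)]
    refine ENNReal.ofReal_le_ofReal ?_
    have h4 : ((#S' : ℕ) : ℝ) ≤ K * 2 ^ j / (j + 1) ^ (V + 2) := by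
      refine le_trans ?_ (hK j)
      have : #S' ≤ S.ncard := by
        rw [Set.ncard_eq_toFinset_card S hSf]
        exact Finset.card_le_card (Finset.filter_subset _ _)
      exact_mod_cast this
    calc ((#S' : ℕ) : ℝ) * (|C| / 2 ^ j) ≤ K * 2 ^ j / (j + 1) ^ (V + 2) * (|C| / 2 ^ j) := by gcongr
      _ = K * |C| / (j + 1) ^ (V + 2) := by field_simp
  have hcov : {ω | ¬ P (X ω) ∧ (2 : ℝ) ^ j₀ ≤ |(X ω : ℝ)|} ⊆ ⋃ i : ℕ,
      {ω | ¬ P (X ω) ∧ (2 : ℝ) ^ (j₀ + i) ≤ |(X ω : ℝ)| ∧ |(X ω : ℝ)| < 2 ^ (j₀ + i + 1)} := by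
    rintro ω ⟨h1, h2⟩
    have h3 : (1 : ℝ) ≤ |(X ω : ℝ)| := le_trans (one_le_pow₀ one_le_two) h2
    obtain ⟨m, hm1, hm2⟩ := exists_nat_pow_near h3 one_lt_two
    have hm : j₀ ≤ m := by
      by_contra hlt
      push Not at hlt
      have : (2 : ℝ) ^ (m + 1) ≤ 2 ^ j₀ := pow_le_pow_right₀ one_le_two hlt
      linarith
    refine Set.mem_iUnion.2 ⟨m - j₀, h1, ?_, ?_⟩ <;> rw [Nat.add_sub_cancel' hm] <;> assumption
  refine (measure_mono hcov).trans ((measure_iUnion_le _).trans ?_)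
  have hterm : ∀ i : ℕ, K * |C| / (((j₀ + i : ℕ) : ℝ) + 1) ^ (V + 2) ≤
      K * |C| / (j₀ + 1) ^ V * (1 / ((i : ℝ) + 1) ^ 2) := by
    intro i
    rw [div_mul_div_comm, mul_one, pow_add]
    have h1 : ((j₀ : ℝ) + 1) ^ V ≤ (((j₀ + i : ℕ) : ℝ) + 1) ^ V := by
      push_cast
      gcongr
      linarith [(Nat.cast_nonneg i : (0 : ℝ) ≤ i)]
    have h2 : ((i : ℝ) + 1) ^ 2 ≤ (((j₀ + i : ℕ) : ℝ) + 1) ^ 2 := by
      push_cast
      gcongr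
      linarith [(Nat.cast_nonneg j₀ : (0 : ℝ) ≤ j₀)]
    gcongr
  have hsum2 : Summable fun i : ℕ => K * |C| / (j₀ + 1) ^ V * (1 / ((i : ℝ) + 1) ^ 2) := hsum.mul_left _
  calc ∑' i : ℕ, μ {ω | ¬ P (X ω) ∧ (2 : ℝ) ^ (j₀ + i) ≤ |(X ω : ℝ)| ∧ |(X ω : ℝ)| < 2 ^ (j₀ + i + 1)}
      ≤ ∑' i : ℕ, ENNReal.ofReal (K * |C| / (j₀ + 1) ^ V * (1 / ((i : ℝ) + 1) ^ 2)) := by
        refine ENNReal.tsum_le_tsum fun i => (hshell (j₀ + i)).trans (ENNReal.ofReal_le_ofReal (hterm i))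
    _ = ENNReal.ofReal (∑' i : ℕ, K * |C| / (j₀ + 1) ^ V * (1 / ((i : ℝ) + 1) ^ 2)) :=
        (ENNReal.ofReal_tsum_of_nonneg (fun i => by positivity) hsum2).symm
    _ = ENNReal.ofReal (K * |C| * (∑' j : ℕ, 1 / ((j : ℝ) + 1) ^ 2) / (j₀ + 1) ^ V) := by
        rw [tsum_mul_left]
        congr 1
        ring

end Pool.Agent.N918.MS
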