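import Pool.Agent.N918.MS.Seq

/-! Countability (copied from N220/CF/Cn of helper220; helper918). -/

set_option autoImplicit false

namespace Pool.Agent.N918.MS

open Finset

theorem countable_mv (s : ℕ) : Countable (MvPolynomial (Fin s) ℤ) := by
  rw [← Cardinal.mk_le_aleph0_iff]
  refine (MvPolynomial.cardinalMk_le_max).trans ?_
  simp

theorem countable_poly : Countable (Polynomial ℤ) := by
  rw [← Cardinal.mk_le_aleph0_iff]
  refine (Polynomial.cardinalMk_le_max).trans ?_
  simp

theorem countable_polymv (s : ℕ) : Countable (Polynomial (MvPolynomial (Fin s) ℤ)) := by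
  have := countable_mv s
  rw [← Cardinal.mk_le_aleph0_iff] at this ⊢
  refine (Polynomial.cardinalMk_le_max).trans ?_
  simpa using this

theorem finite_if (L : Type) [Field L] [NumberField L] : Finite (IntermediateField ℚ L) :=
  Field.finite_intermediateField_of_exists_primitive_element ℚ L (Field.exists_primitive_element ℚ L)

end Pool.Agent.N918.MS
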