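import Pool.Agent.N918.MS.Heights

/-! Random and metric heights: the final form (helper918). -/

set_option autoImplicit false

namespace Pool.Agent.N918.MS

open Finset MeasureTheory Filter
open scoped ENNReal Topology

/-- the distribution of the values of a function with a large logarithmic derivative -/
lemma steep_dens {h h' : ℝ → ℝ} {A B c : ℝ} (hc : 0 < c)
    (hh : ∀ x ∈ Set.Icc A B, HasDerivAt h (h' x) x ∧ 0 < h x ∧ c * h x ≤ h' x) {X : ℝ} (hX : 1 ≤ X) {S : Set ℝ}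
    (hS : MeasurableSet S) (hSX : S ⊆ Set.Icc X (2 * X)) :
    (volume.restrict (Set.Icc A B)) {x : ℝ | h x ∈ S} ≤ ENNReal.ofReal (1 / c / X) * volume S := by
  rw [Measure.restrict_apply' measurableSet_Icc]
  have hcont : ContinuousOn h (Set.Icc A B) := fun x hx => (hh x hx).1.continuousAt.continuousWithinAt
  set E : Set ℝ := {x : ℝ | h x ∈ S} ∩ Set.Icc A B with hE
  have hEm : MeasurableSet E := by
    have h1 : Measurable (Set.domRestrict (Set.Icc A B) h) := (continuousOn_iff_continuous_domRestrict.1 hcont).measurable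
    have h2 : E = Subtype.val '' ((Set.domRestrict (Set.Icc A B) h) ⁻¹' S) := by
      ext x
      simp only [hE, Set.mem_inter_iff, Set.mem_ofPred_eq, Set.mem_image, Set.mem_preimage, Subtype.exists,
        exists_and_right, exists_eq_right, Set.domRestrict_apply]
      constructor
      · rintro ⟨h3, h4⟩
        exact ⟨h4, h3⟩
      · rintro ⟨h4, h3⟩
        exact ⟨h3, h4⟩
    rw [h2]
    exact (MeasurableEmbedding.subtype_coe measurableSet_Icc).measurableSet_image.2 (h1 hS)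
  have hmono : StrictMonoOn h (Set.Icc A B) := by
    refine strictMonoOn_of_deriv_pos (convex_Icc A B) hcont fun x hx => ?_
    have h1 := hh x (interior_subset hx)
    rw [h1.1.deriv]
    have := mul_pos hc h1.2.1
    linarith [h1.2.2]
  have hinj : Set.InjOn h E := hmono.injOn.mono Set.inter_subset_right
  have harea := lintegral_image_eq_lintegral_abs_deriv_mul hEm (fun x hx => (hh x hx.2).1.hasDerivWithinAt) hinj
    (fun _ => (1 : ℝ≥0∞))
  simp only [mul_one, lintegral_const, Measure.restrict_apply_univ, one_mul] at harea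
  have h1 : volume (h '' E) ≤ volume S := measure_mono (by rintro _ ⟨x, hx, rfl⟩; exact hx.1)
  have h2 : ENNReal.ofReal (c * X) * volume E ≤ ∫⁻ x in E, ENNReal.ofReal |h' x| := by
    rw [← setLIntegral_const]
    refine setLIntegral_mono' hEm fun x hx => ENNReal.ofReal_le_ofReal ?_
    have h3 := (hh x hx.2).2
    have h4 : X ≤ h x := (hSX hx.1).1
    calc c * X ≤ c * h x := by gcongr
      _ ≤ h' x := h3.2
      _ ≤ |h' x| := le_abs_self _
  have h3 : ENNReal.ofReal (c * X) * volume E ≤ volume S := h2.trans (harea ▸ h1)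
  have hcX : 0 < c * X := by positivity
  calc volume E = ENNReal.ofReal (1 / c / X) * (ENNReal.ofReal (c * X) * volume E) := by
        rw [← mul_assoc, ← ENNReal.ofReal_mul (by positivity)]
        have : 1 / c / X * (c * X) = 1 := by field_simp
        rw [this, ENNReal.ofReal_one, one_mul]
    _ ≤ _ := mul_le_mul_right h3 _

/-- The sequence `t_n`, which is at least `c n ^ K`, meets the sets `B i`, which have measure about `X ^ (1 - κ i)` in `[X, 2X]`,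
as rarely as possible: finitely often, if `K κ_i > 1`, and at most `N ^ s` times for `n < N`, for all `s > 1 - K κ_i`, if
`K κ_i ≤ 1`. -/
def Along {ι : Type} (κ : ι → ℝ) (B : ι → Set ℝ) (K : ℝ) (t : ℕ → ℝ) : Prop :=
  ∀ i, (1 < K * κ i → ∀ᶠ n in atTop, t n ∉ B i) ∧
    (0 < κ i → ∀ s : ℝ, 0 < s → 1 - K * κ i < s → ∀ᶠ N : ℕ in atTop, ({n : ℕ | n < N ∧ t n ∈ B i}.ncard : ℝ) ≤ (N : ℝ) ^ s)

theorem along_of {ι : Type} [Countable ι] (κ : ι → ℝ) (B : ι → Set ℝ) (h : ∀ i, Rare (κ i) (B i))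
    {Ω : Type} [MeasurableSpace Ω] (μ : Measure Ω) [IsFiniteMeasure μ] (T : ℕ → Ω → ℝ) {C c K : ℝ} (hC : 0 ≤ C) (hc : 0 < c)
    (hK : 0 < K) (hT : Heights μ T C c K) : ∀ᵐ ω ∂μ, Along κ B K (fun n => T n ω) := by
  unfold Along
  rw [ae_all_iff]
  intro i
  have h1 : ∀ᵐ ω ∂μ, 1 < K * κ i → ∀ᶠ n in atTop, T n ω ∉ B i := by
    by_cases hi : 1 < K * κ i
    · filter_upwards [(h i).eventually μ T hC hc hK hT hi] with ω hω _
      exact hω
    · exact Eventually.of_forall fun ω h => absurd h hi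
  have h2 : ∀ s : ℚ, ∀ᵐ ω ∂μ, 0 < κ i → (0 : ℝ) < s → 1 - K * κ i < s → ∀ᶠ N : ℕ in atTop,
      ({n : ℕ | n < N ∧ T n ω ∈ B i}.ncard : ℝ) ≤ (N : ℝ) ^ (s : ℝ) := by
    intro s
    by_cases hs : 0 < κ i ∧ (0 : ℝ) < s ∧ 1 - K * κ i < s
    · filter_upwards [(h i).count hs.1 μ T hC hc hK hT hs.2.1 hs.2.2] with ω hω _ _ _
      exact hω
    · exact Eventually.of_forall fun ω h1 h2 h3 => absurd ⟨h1, h2, h3⟩ hs
  filter_upwards [h1, ae_all_iff.2 h2] with ω hω1 hω2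
  refine ⟨hω1, fun hκ s hs0 hs => ?_⟩
  obtain ⟨q, hq1, hq2⟩ := exists_rat_btwn (max_lt hs0 hs)
  filter_upwards [hω2 q hκ (lt_of_le_of_lt (le_max_left _ _) hq1) (lt_of_le_of_lt (le_max_right _ _) hq1),
    eventually_ge_atTop 1] with N hN hN1
  exact hN.trans (Real.rpow_le_rpow_of_exponent_le (by exact_mod_cast hN1) hq2.le)

/-- **Functions with a large logarithmic derivative.** -/
theorem along_steep {ι : Type} [Countable ι] (κ : ι → ℝ) (B : ι → Set ℝ) (hB : ∀ i, Rare (κ i) (B i))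
    {A A' c c' K : ℝ} (hc : 0 < c) (hc' : 0 < c') (hK : 0 < K) (h h' : ℕ → ℝ → ℝ)
    (hh : ∀ n : ℕ, ∀ x ∈ Set.Icc A A', HasDerivAt (h n) (h' n x) x ∧ 0 < h n x ∧ c * h n x ≤ h' n x ∧
      c' * (n : ℝ) ^ K ≤ h n x) :
    ∀ᵐ x : ℝ, x ∈ Set.Icc A A' → Along κ B K (fun n => h n x) := by
  rw [← ae_restrict_iff' measurableSet_Icc]
  refine along_of κ B hB (volume.restrict (Set.Icc A A')) h (C := 1 / c) (by positivity) hc' hK ⟨fun n X hX S hS hSX => ?_,
    fun n => ?_⟩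
  · exact steep_dens hc (fun x hx => ⟨(hh n x hx).1, (hh n x hx).2.1, (hh n x hx).2.2.1⟩) hX hS hSX
  · rw [ae_restrict_iff' measurableSet_Icc]
    exact Eventually.of_forall fun x hx => (hh n x hx).2.2.2

/-- **Multiples.** -/
theorem along_mul {ι : Type} [Countable ι] (κ : ι → ℝ) (B : ι → Set ℝ) (hB : ∀ i, Rare (κ i) (B i))
    {c K : ℝ} (hc : 0 < c) (hK : 0 < K) (a : ℕ → ℝ) (ha0 : ∀ n, 0 < a n) (ha : ∀ n : ℕ, c * (n : ℝ) ^ K ≤ a n) :
    ∀ᵐ x : ℝ, 0 < x → Along κ B K (fun n => a n * x) := by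
  have h1 : ∀ m : ℕ, ∀ᵐ x : ℝ, x ∈ Set.Icc (1 / ((m : ℝ) + 1)) (m + 1) → Along κ B K (fun n => a n * x) := by
    intro m
    have hm : (0 : ℝ) < 1 / ((m : ℝ) + 1) := by positivity
    refine along_steep κ B hB (c := 1 / ((m : ℝ) + 1)) (c' := c * (1 / ((m : ℝ) + 1))) (by positivity) (by positivity) hK
      (fun n x => a n * x) (fun n _ => a n) ?_
    intro n x hx
    have hx0 : 0 < x := lt_of_lt_of_le hm hx.1
    refine ⟨by simpa using (hasDerivAt_id x).const_mul (a n), mul_pos (ha0 n) hx0, ?_, ?_⟩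
    · have h2 : x / ((m : ℝ) + 1) ≤ 1 := by
        rw [div_le_one (by positivity)]
        exact hx.2
      calc 1 / ((m : ℝ) + 1) * (a n * x) = a n * (x / (m + 1)) := by ring
        _ ≤ a n * 1 := mul_le_mul_of_nonneg_left h2 (ha0 n).le
        _ = a n := mul_one _
    · calc c * (1 / ((m : ℝ) + 1)) * (n : ℝ) ^ K = (c * (n : ℝ) ^ K) * (1 / (m + 1)) := by ring
        _ ≤ a n * x := mul_le_mul (ha n) hx.1 hm.le (ha0 n).le
  filter_upwards [ae_all_iff.2 h1] with x hx hx0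
  obtain ⟨m₁, hm₁⟩ := exists_nat_ge x
  obtain ⟨m₂, hm₂⟩ := exists_nat_one_div_lt hx0
  refine hx (max m₁ m₂) ⟨?_, ?_⟩
  · have h2 : (1 : ℝ) / (((max m₁ m₂ : ℕ) : ℝ) + 1) ≤ 1 / ((m₂ : ℝ) + 1) := by
      refine one_div_le_one_div_of_le (by positivity) ?_
      have : ((m₂ : ℕ) : ℝ) ≤ ((max m₁ m₂ : ℕ) : ℝ) := by exact_mod_cast le_max_right m₁ m₂
      linarith
    linarith
  · have : ((m₁ : ℕ) : ℝ) ≤ ((max m₁ m₂ : ℕ) : ℝ) := by exact_mod_cast le_max_left m₁ m₂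
    linarith

/-- **Powers.** -/
theorem along_pow {ι : Type} [Countable ι] (κ : ι → ℝ) (B : ι → Set ℝ) (hB : ∀ i, Rare (κ i) (B i))
    {ξ : ℝ} (hξ : 0 < ξ) : ∀ᵐ x : ℝ, 1 < x → ∀ i, 0 < κ i → ∀ᶠ n : ℕ in atTop, ξ * x ^ n ∉ B i := by
  have h1 : ∀ (m K : ℕ), 0 < K → ∀ᵐ x : ℝ, x ∈ Set.Icc (1 + 1 / ((m : ℝ) + 1)) (m + 1) →
      Along κ B K (fun n => ξ * x ^ (n + 1)) := by
    intro m K hK
    set A : ℝ := 1 + 1 / ((m : ℝ) + 1) with hA
    have hm0 : (0 : ℝ) < 1 / ((m : ℝ) + 1) := by positivity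
    have hA1 : 1 < A := by linarith
    have hm1 : (0 : ℝ) < (m : ℝ) + 1 := by positivity
    -- `n ^ K ≤ M A ^ n`
    obtain ⟨M, hM0, hM⟩ : ∃ M : ℝ, 0 < M ∧ ∀ n : ℕ, (n : ℝ) ^ K ≤ M * A ^ n := by
      have h2 := (tendsto_pow_const_div_const_pow_of_one_lt K hA1).bddAbove_range
      obtain ⟨M, hM⟩ := h2
      refine ⟨max M 1, by positivity, fun n => ?_⟩
      have h3 : (n : ℝ) ^ K / A ^ n ≤ M := hM ⟨n, rfl⟩
      rw [div_le_iff₀ (by positivity)] at h3
      exact h3.trans (mul_le_mul_of_nonneg_right (le_max_left _ _) (by positivity))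
    refine along_steep κ B hB (c := 1 / ((m : ℝ) + 1)) (c' := ξ / M) (by positivity) (by positivity) (by exact_mod_cast hK)
      (fun n x => ξ * x ^ (n + 1)) (fun n x => ξ * (((n + 1 : ℕ) : ℝ) * x ^ n)) ?_
    intro n x hx
    have hx0 : 0 < x := by linarith [hx.1]
    have hpow : HasDerivAt (fun x : ℝ => ξ * x ^ (n + 1)) (ξ * (((n + 1 : ℕ) : ℝ) * x ^ n)) x := by
      have := (hasDerivAt_pow (n + 1) x).const_mul ξ
      simpa using this
    refine ⟨hpow, by positivity, ?_, ?_⟩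
    · have h4 : 1 / ((m : ℝ) + 1) * x ≤ ((n + 1 : ℕ) : ℝ) := by
        rw [one_div, inv_mul_le_iff₀ hm1]
        have h5 : (1 : ℝ) ≤ ((n + 1 : ℕ) : ℝ) := by exact_mod_cast Nat.succ_le_succ (Nat.zero_le n)
        nlinarith [hx.2]
      calc 1 / ((m : ℝ) + 1) * (ξ * x ^ (n + 1)) = (ξ * x ^ n) * (1 / ((m : ℝ) + 1) * x) := by rw [pow_succ]; ring
        _ ≤ (ξ * x ^ n) * ((n + 1 : ℕ) : ℝ) := mul_le_mul_of_nonneg_left h4 (by positivity)
        _ = _ := by ring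
    · rw [Real.rpow_natCast]
      have h5 : A ^ n ≤ x ^ (n + 1) := by
        calc A ^ n ≤ A ^ (n + 1) := pow_le_pow_right₀ hA1.le (Nat.le_succ n)
          _ ≤ x ^ (n + 1) := pow_le_pow_left₀ (by linarith) hx.1 _
      calc ξ / M * (n : ℝ) ^ K ≤ ξ / M * (M * A ^ n) := mul_le_mul_of_nonneg_left (hM n) (by positivity)
        _ = ξ * A ^ n := by field_simp
        _ ≤ ξ * x ^ (n + 1) := mul_le_mul_of_nonneg_left h5 hξ.le
  have h2 : ∀ᵐ x : ℝ, ∀ (m K : ℕ), 0 < K → x ∈ Set.Icc (1 + 1 / ((m : ℝ) + 1)) (m + 1) →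
      Along κ B K (fun n => ξ * x ^ (n + 1)) := by
    rw [ae_all_iff]
    intro m
    rw [ae_all_iff]
    intro K
    by_cases hK : 0 < K
    · filter_upwards [h1 m K hK] with x hx _
      exact hx
    · exact Eventually.of_forall fun x h => absurd h hK
  filter_upwards [h2] with x hx hx1 i hi
  obtain ⟨m₁, hm₁⟩ := exists_nat_ge x
  obtain ⟨m₂, hm₂⟩ := exists_nat_one_div_lt (sub_pos.2 hx1)
  obtain ⟨K, hK⟩ := exists_nat_gt (1 / κ i)
  have hK0 : 0 < K := by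
    have : (0 : ℝ) < K := lt_trans (by positivity) hK
    exact_mod_cast this
  have h3 := ((hx (max m₁ m₂) K hK0 ⟨?_, ?_⟩) i).1 ?_
  · obtain ⟨N, hN⟩ := eventually_atTop.1 h3
    refine eventually_atTop.2 ⟨N + 1, fun n hn => ?_⟩
    have h4 : ξ * x ^ (n - 1 + 1) ∉ B i := hN (n - 1) (by omega)
    rwa [Nat.sub_add_cancel (by omega)] at h4
  · have h2 : (1 : ℝ) / (((max m₁ m₂ : ℕ) : ℝ) + 1) ≤ 1 / ((m₂ : ℝ) + 1) := by
      refine one_div_le_one_div_of_le (by positivity) ?_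
      have : ((m₂ : ℕ) : ℝ) ≤ ((max m₁ m₂ : ℕ) : ℝ) := by exact_mod_cast le_max_right m₁ m₂
      linarith
    linarith
  · have : ((m₁ : ℕ) : ℝ) ≤ ((max m₁ m₂ : ℕ) : ℝ) := by exact_mod_cast le_max_left m₁ m₂
    linarith
  · rw [div_lt_iff₀ hi] at hK
    exact hK

end Pool.Agent.N918.MS
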