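import Mathlib

/-! Random heights and sets of real numbers with a saving of a power (helper918). -/

set_option autoImplicit false

namespace Pool.Agent.N918.MS

open Finset MeasureTheory Filter
open scoped ENNReal Topology

/-- the set `B` has measure at most `C X ^ (1 - κ + ε)` in `[X, 2X]`, for all `ε > 0` -/
def Rare (κ : ℝ) (B : Set ℝ) : Prop :=
  ∀ ε : ℝ, 0 < ε → ∃ C : ℝ, ∀ X : ℝ, 2 ≤ X → volume (B ∩ Set.Icc X (2 * X)) ≤ ENNReal.ofReal (C * X ^ (1 - κ + ε))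

/-- Random heights `T_0, T_1, …`, of any dependence, with `T_n ≥ c n ^ K` almost surely: the probability of `T_n ∈ S` is at
most `C |S| / X` for all measurable subsets `S` of `[X, 2X]`. -/
structure Heights {Ω : Type} [MeasurableSpace Ω] (μ : Measure Ω) (T : ℕ → Ω → ℝ) (C c K : ℝ) : Prop where
  dens : ∀ (n : ℕ) (X : ℝ), 1 ≤ X → ∀ S : Set ℝ, MeasurableSet S → S ⊆ Set.Icc X (2 * X) →
    μ {ω | T n ω ∈ S} ≤ ENNReal.ofReal (C / X) * volume S
  grow : ∀ n : ℕ, ∀ᵐ ω ∂μ, c * (n : ℝ) ^ K ≤ T n ω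

lemma Rare.shell {κ : ℝ} {B : Set ℝ} (hB : Rare κ B) {ε : ℝ} (hε : 0 < ε) : ∃ C₁ : ℝ, 0 ≤ C₁ ∧
    ∀ {Ω : Type} [MeasurableSpace Ω] (μ : Measure Ω) (T : ℕ → Ω → ℝ) (C c K : ℝ), 0 ≤ C → Heights μ T C c K →
      ∀ (n : ℕ) (X : ℝ), 2 ≤ X → μ {ω | T n ω ∈ B ∧ T n ω ∈ Set.Icc X (2 * X)} ≤
        ENNReal.ofReal (C * C₁ * X ^ (-(κ - ε))) := by
  obtain ⟨C₁, hC₁⟩ := hB ε hε
  refine ⟨|C₁|, abs_nonneg _, ?_⟩
  intro Ω _ μ T C c K hC hT n X hX
  have hX0 : 0 < X := by linarith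
  set S : Set ℝ := toMeasurable volume (B ∩ Set.Icc X (2 * X)) ∩ Set.Icc X (2 * X) with hS
  have hSm : MeasurableSet S := (measurableSet_toMeasurable _ _).inter measurableSet_Icc
  have h1 := hT.dens n X (by linarith) S hSm Set.inter_subset_right
  have h2 : volume S ≤ ENNReal.ofReal (|C₁| * X ^ (1 - κ + ε)) := by
    refine (measure_mono Set.inter_subset_left).trans ?_
    rw [measure_toMeasurable]
    refine (hC₁ X hX).trans (ENNReal.ofReal_le_ofReal ?_)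
    exact mul_le_mul_of_nonneg_right (le_abs_self _) (by positivity)
  have h3 : {ω | T n ω ∈ B ∧ T n ω ∈ Set.Icc X (2 * X)} ⊆ {ω | T n ω ∈ S} := by
    rintro ω ⟨h4, h5⟩
    exact ⟨subset_toMeasurable _ _ ⟨h4, h5⟩, h5⟩
  refine (measure_mono h3).trans (h1.trans ?_)
  refine (mul_le_mul_right h2 _).trans ?_
  rw [← ENNReal.ofReal_mul (by positivity)]
  refine ENNReal.ofReal_le_ofReal (le_of_eq ?_)
  have h6 : X ^ (1 - κ + ε) = X * X ^ (-(κ - ε)) := by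
    rw [show (1 - κ + ε : ℝ) = 1 + -(κ - ε) by ring, Real.rpow_add hX0, Real.rpow_one]
  rw [h6]
  field_simp

/-- the probability that `T_n` belongs to the rare set -/
theorem Rare.meas {κ : ℝ} {B : Set ℝ} (hB : Rare κ B) {ε : ℝ} (hε : 0 < ε) (hεκ : ε < κ)
    {Ω : Type} [MeasurableSpace Ω] (μ : Measure Ω) (T : ℕ → Ω → ℝ) {C c K : ℝ} (hC : 0 ≤ C) (hc : 0 < c)
    (hT : Heights μ T C c K) :
    ∃ C₂ : ℝ, 0 ≤ C₂ ∧ ∀ n : ℕ, 2 ≤ c * (n : ℝ) ^ K → μ {ω | T n ω ∈ B} ≤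
      ENNReal.ofReal (C₂ * (n : ℝ) ^ (-(K * (κ - ε)))) := by
  obtain ⟨C₁, hC₁0, hC₁⟩ := hB.shell hε
  set ρ : ℝ := (2 : ℝ) ^ (-(κ - ε)) with hρ
  have hρ0 : 0 < ρ := by positivity
  have hρ1 : ρ < 1 := Real.rpow_lt_one_of_one_lt_of_neg one_lt_two (by linarith)
  have hsum : Summable fun j : ℕ => ρ ^ j := summable_geometric_of_lt_one hρ0.le hρ1
  refine ⟨C * C₁ * c ^ (-(κ - ε)) * ∑' j : ℕ, ρ ^ j, ?_, ?_⟩
  · have : 0 ≤ ∑' j : ℕ, ρ ^ j := tsum_nonneg fun j => by positivity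
    positivity
  intro n hn
  set Y : ℝ := c * (n : ℝ) ^ K with hY
  have hY0 : 0 < Y := by linarith
  have hcov : ∀ᵐ ω ∂μ, ω ∈ {ω | T n ω ∈ B} →
      ω ∈ ⋃ j : ℕ, {ω | T n ω ∈ B ∧ T n ω ∈ Set.Icc (Y * 2 ^ j) (2 * (Y * 2 ^ j))} := by
    filter_upwards [hT.grow n] with ω hgrow hω
    have h1 : Y ≤ T n ω := hgrow
    have h2 : (1 : ℝ) ≤ T n ω / Y := by rwa [one_le_div hY0]
    obtain ⟨m, hm1, hm2⟩ := exists_nat_pow_near h2 one_lt_two
    rw [le_div_iff₀ hY0] at hm1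
    rw [div_lt_iff₀ hY0] at hm2
    refine Set.mem_iUnion.2 ⟨m, hω, ?_, ?_⟩
    · linarith
    · rw [pow_succ] at hm2
      linarith
  refine (measure_mono_ae hcov).trans ((measure_iUnion_le _).trans ?_)
  have hterm : ∀ j : ℕ, μ {ω | T n ω ∈ B ∧ T n ω ∈ Set.Icc (Y * 2 ^ j) (2 * (Y * 2 ^ j))} ≤
      ENNReal.ofReal (C * C₁ * Y ^ (-(κ - ε)) * ρ ^ j) := by
    intro j
    have hj : (1 : ℝ) ≤ 2 ^ j := one_le_pow₀ one_le_two
    refine (hC₁ μ T C c K hC hT n (Y * 2 ^ j) (by nlinarith)).trans (ENNReal.ofReal_le_ofReal (le_of_eq ?_))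
    rw [Real.mul_rpow hY0.le (by positivity), hρ, ← Real.rpow_natCast (2 : ℝ) j, ← Real.rpow_mul (by norm_num),
      ← Real.rpow_natCast ((2 : ℝ) ^ (-(κ - ε))) j, ← Real.rpow_mul (by norm_num), mul_comm (j : ℝ)]
    ring
  have hsum2 : Summable fun j : ℕ => C * C₁ * Y ^ (-(κ - ε)) * ρ ^ j := hsum.mul_left _
  refine (ENNReal.tsum_le_tsum hterm).trans ?_
  rw [← ENNReal.ofReal_tsum_of_nonneg (fun j => by positivity) hsum2, tsum_mul_left]
  refine ENNReal.ofReal_le_ofReal (le_of_eq ?_)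
  rw [hY, Real.mul_rpow hc.le (by positivity), ← Real.rpow_mul (Nat.cast_nonneg n), mul_neg]
  ring

/-- **Fast heights.** If `K κ > 1`, almost surely only finitely many `T_n` belong to the rare set. -/
theorem Rare.eventually {κ : ℝ} {B : Set ℝ} (hB : Rare κ B)
    {Ω : Type} [MeasurableSpace Ω] (μ : Measure Ω) [IsFiniteMeasure μ] (T : ℕ → Ω → ℝ) {C c K : ℝ} (hC : 0 ≤ C) (hc : 0 < c)
    (hK : 0 < K) (hT : Heights μ T C c K) (h1 : 1 < K * κ) : ∀ᵐ ω ∂μ, ∀ᶠ n in atTop, T n ω ∉ B := by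
  have hκ : 0 < κ := by
    by_contra h
    push Not at h
    nlinarith
  obtain ⟨ε, hε, hεκ, h2⟩ : ∃ ε : ℝ, 0 < ε ∧ ε < κ ∧ 1 < K * (κ - ε) := by
    refine ⟨(κ - 1 / K) / 2, ?_, ?_, ?_⟩
    · have : 1 / K < κ := by rwa [div_lt_iff₀ hK, mul_comm]
      linarith
    · have : 0 < 1 / K := by positivity
      linarith
    · have h3 : K * (κ - (κ - 1 / K) / 2) = (K * κ + K * (1 / K)) / 2 := by ring
      rw [h3, mul_one_div, div_self hK.ne']
      linarith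
  obtain ⟨C₂, hC₂, h3⟩ := hB.meas hε hεκ μ T hC hc hT
  have ht : Tendsto (fun n : ℕ => c * (n : ℝ) ^ K) atTop atTop :=
    ((tendsto_rpow_atTop hK).comp tendsto_natCast_atTop_atTop).const_mul_atTop hc
  obtain ⟨n₀, hn₀⟩ := eventually_atTop.1 (ht.eventually_ge_atTop 2)
  have hsum : ∑' n : ℕ, μ {ω | T (n + n₀) ω ∈ B} ≠ ∞ := by
    have h4 : Summable fun n : ℕ => C₂ * (n : ℝ) ^ (-(K * (κ - ε))) :=
      (Real.summable_nat_rpow.2 (by linarith)).mul_left _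
    have h5 : Summable fun n : ℕ => C₂ * ((n + n₀ : ℕ) : ℝ) ^ (-(K * (κ - ε))) := (summable_nat_add_iff n₀).2 h4
    refine ne_top_of_le_ne_top ?_ (ENNReal.tsum_le_tsum fun n => h3 (n + n₀) (hn₀ _ (by omega)))
    rw [← ENNReal.ofReal_tsum_of_nonneg (fun n => by positivity) h5]
    exact ENNReal.ofReal_ne_top
  filter_upwards [ae_eventually_notMem hsum] with ω hω
  obtain ⟨N, hN⟩ := eventually_atTop.1 hω
  refine eventually_atTop.2 ⟨N + n₀, fun n hn => ?_⟩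
  have h6 := hN (n - n₀) (by omega)
  rw [Nat.sub_add_cancel (by omega)] at h6
  exact h6

/-- **The number of the exceptional heights.** -/
theorem Rare.count {κ : ℝ} {B : Set ℝ} (hB : Rare κ B) (hκ : 0 < κ)
    {Ω : Type} [MeasurableSpace Ω] (μ : Measure Ω) [IsFiniteMeasure μ] (T : ℕ → Ω → ℝ) {C c K : ℝ} (hC : 0 ≤ C) (hc : 0 < c)
    (hK : 0 < K) (hT : Heights μ T C c K) {s : ℝ} (hs0 : 0 < s) (hs : 1 - K * κ < s) :
    ∀ᵐ ω ∂μ, ∀ᶠ N : ℕ in atTop, ({n : ℕ | n < N ∧ T n ω ∈ B}.ncard : ℝ) ≤ (N : ℝ) ^ s := by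
  classical
  obtain ⟨s', hs'0, hs's, hs'1⟩ : ∃ s' : ℝ, 0 < s' ∧ s' < s ∧ 1 - K * κ < s' := by
    refine ⟨(max 0 (1 - K * κ) + s) / 2, ?_, ?_, ?_⟩
    · have := le_max_left 0 (1 - K * κ)
      linarith
    · have : max 0 (1 - K * κ) < s := max_lt hs0 hs
      linarith
    · have := le_max_right 0 (1 - K * κ)
      linarith
  obtain ⟨ε, hε, hεκ, h2⟩ : ∃ ε : ℝ, 0 < ε ∧ ε < κ ∧ 1 < K * (κ - ε) + s' := by
    refine ⟨min (κ / 2) ((K * κ + s' - 1) / (2 * K)), ?_, ?_, ?_⟩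
    · refine lt_min (by linarith) (div_pos (by linarith) (by linarith))
    · exact lt_of_le_of_lt (min_le_left _ _) (by linarith)
    · have h3 : min (κ / 2) ((K * κ + s' - 1) / (2 * K)) ≤ (K * κ + s' - 1) / (2 * K) := min_le_right _ _
      have h4 : K * min (κ / 2) ((K * κ + s' - 1) / (2 * K)) ≤ (K * κ + s' - 1) / 2 := by
        calc K * min (κ / 2) ((K * κ + s' - 1) / (2 * K)) ≤ K * ((K * κ + s' - 1) / (2 * K)) := by gcongr
          _ = (K * κ + s' - 1) / 2 := by field_simp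
      rw [mul_sub]
      linarith
  obtain ⟨C₂, hC₂, h3⟩ := hB.meas hε hεκ μ T hC hc hT
  have ht : Tendsto (fun n : ℕ => c * (n : ℝ) ^ K) atTop atTop :=
    ((tendsto_rpow_atTop hK).comp tendsto_natCast_atTop_atTop).const_mul_atTop hc
  obtain ⟨n₁, hn₁⟩ := eventually_atTop.1 (ht.eventually_ge_atTop 2)
  obtain ⟨n₀, hn₀, hn₀1⟩ : ∃ n₀ : ℕ, n₁ ≤ n₀ ∧ 1 ≤ n₀ := ⟨max n₁ 1, le_max_left _ _, le_max_right _ _⟩
  set E : ℕ → Set Ω := fun m => toMeasurable μ {ω | T (m + n₀) ω ∈ B} with hE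
  have hEm : ∀ m, MeasurableSet (E m) := fun m => measurableSet_toMeasurable _ _
  have hEμ : ∀ m, μ (E m) ≤ ENNReal.ofReal (C₂ * ((m + n₀ : ℕ) : ℝ) ^ (-(K * (κ - ε)))) := fun m => by
    simp only [hE]
    rw [measure_toMeasurable]
    exact h3 (m + n₀) (hn₁ _ (by omega))
  set w : ℕ → ℝ := fun m => ((m + n₀ : ℕ) : ℝ) ^ (-s') with hw
  have hw0 : ∀ m, 0 < w m := fun m => by
    have : (0 : ℝ) < ((m + n₀ : ℕ) : ℝ) := by exact_mod_cast (by omega : 0 < m + n₀)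
    simp only [hw]
    positivity
  set f : Ω → ℝ≥0∞ := fun ω => ∑' m : ℕ, ENNReal.ofReal (w m) * Set.indicator (E m) (fun _ => 1) ω with hf
  have hfm : Measurable f := by
    refine Measurable.ennreal_tsum fun m => Measurable.const_mul (measurable_const.indicator (hEm m)) _
  have hfi : ∫⁻ ω, f ω ∂μ ≠ ∞ := by
    simp only [hf]
    rw [lintegral_tsum (fun m => (Measurable.const_mul (measurable_const.indicator (hEm m)) _).aemeasurable)]
    have h4 : ∀ m, ∫⁻ ω, ENNReal.ofReal (w m) * Set.indicator (E m) (fun _ => (1 : ℝ≥0∞)) ω ∂μ ≤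
        ENNReal.ofReal (C₂ * ((m + n₀ : ℕ) : ℝ) ^ (-(K * (κ - ε) + s'))) := by
      intro m
      rw [lintegral_const_mul _ (measurable_const.indicator (hEm m)), lintegral_indicator_const (hEm m), one_mul]
      refine (mul_le_mul_right (hEμ m) _).trans ?_
      rw [← ENNReal.ofReal_mul (hw0 m).le]
      refine ENNReal.ofReal_le_ofReal (le_of_eq ?_)
      have h5 : (0 : ℝ) < ((m + n₀ : ℕ) : ℝ) := by exact_mod_cast (by omega : 0 < m + n₀)
      rw [neg_add, Real.rpow_add h5]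
      simp only [hw]
      ring
    have h4' : Summable fun n : ℕ => C₂ * (n : ℝ) ^ (-(K * (κ - ε) + s')) :=
      (Real.summable_nat_rpow.2 (by linarith)).mul_left _
    have h5 : Summable fun m : ℕ => C₂ * ((m + n₀ : ℕ) : ℝ) ^ (-(K * (κ - ε) + s')) := (summable_nat_add_iff n₀).2 h4'
    refine ne_top_of_le_ne_top ?_ (ENNReal.tsum_le_tsum h4)
    rw [← ENNReal.ofReal_tsum_of_nonneg (fun n => by positivity) h5]
    exact ENNReal.ofReal_ne_top
  filter_upwards [ae_lt_top hfm hfi] with ω hω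
  set F : ℝ := (f ω).toReal with hF
  have hF0 : 0 ≤ F := ENNReal.toReal_nonneg
  have hcount : ∀ N : ℕ, (#{m ∈ range N | ω ∈ E m} : ℝ) ≤ ((N + n₀ : ℕ) : ℝ) ^ s' * F := by
    intro N
    have hN0 : (0 : ℝ) < ((N + n₀ : ℕ) : ℝ) := by exact_mod_cast (by omega : 0 < N + n₀)
    have h5 : ENNReal.ofReal ((#{m ∈ range N | ω ∈ E m} : ℝ) * ((N + n₀ : ℕ) : ℝ) ^ (-s')) ≤ f ω := by
      have h6 : ENNReal.ofReal ((#{m ∈ range N | ω ∈ E m} : ℝ) * ((N + n₀ : ℕ) : ℝ) ^ (-s')) ≤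
          ∑ m ∈ range N, ENNReal.ofReal (w m) * Set.indicator (E m) (fun _ => (1 : ℝ≥0∞)) ω := by
        have h7 : ∀ m ∈ range N, ENNReal.ofReal (if ω ∈ E m then ((N + n₀ : ℕ) : ℝ) ^ (-s') else 0) ≤
            ENNReal.ofReal (w m) * Set.indicator (E m) (fun _ => (1 : ℝ≥0∞)) ω := by
          intro m hm
          split_ifs with h8
          · rw [Set.indicator_of_mem h8, mul_one]
            refine ENNReal.ofReal_le_ofReal ?_
            have h9 : (0 : ℝ) < ((m + n₀ : ℕ) : ℝ) := by exact_mod_cast (by omega : 0 < m + n₀)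
            simp only [hw]
            refine Real.rpow_le_rpow_of_nonpos h9 ?_ (by linarith)
            have := Finset.mem_range.1 hm
            exact_mod_cast (by omega : m + n₀ ≤ N + n₀)
          · simp
        refine le_trans (le_of_eq ?_) (Finset.sum_le_sum h7)
        rw [← ENNReal.ofReal_sum_of_nonneg (fun m _ => by split_ifs <;> positivity), ← Finset.sum_filter, Finset.sum_const,
          nsmul_eq_mul]
      exact h6.trans (ENNReal.sum_le_tsum _)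
    have h6 : (#{m ∈ range N | ω ∈ E m} : ℝ) * ((N + n₀ : ℕ) : ℝ) ^ (-s') ≤ F :=
      (ENNReal.ofReal_le_iff_le_toReal hω.ne).1 h5
    rw [Real.rpow_neg hN0.le, ← div_eq_mul_inv, div_le_iff₀ (by positivity)] at h6
    linarith
  have ht2 : Tendsto (fun n : ℕ => (n : ℝ) ^ (s - s')) atTop atTop :=
    (tendsto_rpow_atTop (by linarith)).comp tendsto_natCast_atTop_atTop
  filter_upwards [ht2.eventually_ge_atTop (n₀ + 2 ^ s' * F), eventually_ge_atTop n₀] with N hN1 hN2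
  have hN0 : (1 : ℝ) ≤ N := by exact_mod_cast hn₀1.trans hN2
  have h5 : ({n : ℕ | n < N ∧ T n ω ∈ B}.ncard : ℝ) ≤ n₀ + #{m ∈ range N | ω ∈ E m} := by
    have h6 : {n : ℕ | n < N ∧ T n ω ∈ B} ⊆ ↑(range n₀ ∪ ({m ∈ range N | ω ∈ E m}).image (fun m => m + n₀)) := by
      rintro n ⟨hn1, hn2⟩
      rw [Finset.coe_union]
      rcases lt_or_ge n n₀ with hlt | hge
      · left
        simpa using hlt
      · right
        rw [Finset.coe_image]
        refine ⟨n - n₀, ?_, Nat.sub_add_cancel hge⟩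
        simp only [Finset.coe_filter, Finset.mem_range, Set.mem_ofPred_eq]
        refine ⟨by omega, ?_⟩
        refine subset_toMeasurable _ _ ?_
        rw [Set.mem_ofPred_eq, Nat.sub_add_cancel hge]
        exact hn2
    have h7 : {n : ℕ | n < N ∧ T n ω ∈ B}.ncard ≤ #(range n₀ ∪ ({m ∈ range N | ω ∈ E m}).image (fun m => m + n₀)) := by
      have := Set.ncard_le_ncard h6 (Finset.finite_toSet _)
      rwa [Set.ncard_coe_finset] at this
    have h8 := h7.trans (Finset.card_union_le _ _)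
    have h9 : #(({m ∈ range N | ω ∈ E m}).image (fun m => m + n₀)) ≤ #{m ∈ range N | ω ∈ E m} := Finset.card_image_le
    rw [card_range] at h8
    exact_mod_cast h8.trans (by omega)
  refine h5.trans ?_
  have h6 := hcount N
  have h7 : ((N + n₀ : ℕ) : ℝ) ^ s' ≤ 2 ^ s' * (N : ℝ) ^ s' := by
    rw [← Real.mul_rpow (by norm_num) (by linarith)]
    refine Real.rpow_le_rpow (by positivity) ?_ hs'0.le
    push_cast
    have : (n₀ : ℝ) ≤ N := by exact_mod_cast hN2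
    linarith
  have h8 : (1 : ℝ) ≤ (N : ℝ) ^ s' := Real.one_le_rpow hN0 hs'0.le
  have h9 : (N : ℝ) ^ s = (N : ℝ) ^ s' * (N : ℝ) ^ (s - s') := by
    rw [← Real.rpow_add (by linarith)]
    congr 1
    ring
  rw [h9]
  have h10 : (0 : ℝ) ≤ n₀ := Nat.cast_nonneg _
  calc (n₀ : ℝ) + #{m ∈ range N | ω ∈ E m} ≤ n₀ * (N : ℝ) ^ s' + 2 ^ s' * (N : ℝ) ^ s' * F := by
        have h11 : (n₀ : ℝ) ≤ n₀ * (N : ℝ) ^ s' := le_mul_of_one_le_right h10 h8
        have h12 : ((N + n₀ : ℕ) : ℝ) ^ s' * F ≤ 2 ^ s' * (N : ℝ) ^ s' * F := by gcongr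
        linarith
    _ = (N : ℝ) ^ s' * (n₀ + 2 ^ s' * F) := by ring
    _ ≤ _ := by gcongr

end Pool.Agent.N918.MS
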