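import Pool.Agent.N918.MS.Met

/-! Metric sequences: separated sequences of real numbers, powers of almost every number (helper918). -/

set_option autoImplicit false

namespace Pool.Agent.N918.MS

open Finset MeasureTheory Filter
open scoped ENNReal Topology

/-- the density of the multiples of `α` -/
lemma mul_density (a : ℝ) (M : ℕ) (k : ℤ) :
    (volume.restrict (Set.Icc (-(M : ℝ)) M)) {α : ℝ | ⌊a * α⌋ = k} ≤
      ENNReal.ofReal ((2 * M + 1) * (M + 2) / (|(k : ℝ)| + 1)) := by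
  rw [Measure.restrict_apply' measurableSet_Icc]
  have hM : (0 : ℝ) ≤ M := Nat.cast_nonneg M
  by_cases hk : |(k : ℝ)| ≤ |a| * M + 1
  · rcases le_total 1 |a| with ha | ha
    · have ha0 : a ≠ 0 := by
        rintro rfl
        rw [abs_zero] at ha
        linarith
      have h1 := volume_affine ha0 0 (k : ℝ) 1
      refine le_trans (measure_mono ?_) (h1.le.trans (ENNReal.ofReal_le_ofReal ?_))
      · rintro α ⟨h2, -⟩
        have h3 : ⌊a * α⌋ = k := h2
        rw [Int.floor_eq_iff] at h3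
        simpa using h3
      · rw [div_le_div_iff₀ (by linarith) (by positivity)]
        have h4 : (0 : ℝ) ≤ |a| * M := by positivity
        nlinarith
    · have h1 : {α : ℝ | ⌊a * α⌋ = k} ∩ Set.Icc (-(M : ℝ)) M ⊆ Set.Icc (-(M : ℝ)) M := Set.inter_subset_right
      refine (measure_mono h1).trans ?_
      rw [Real.volume_Icc]
      refine ENNReal.ofReal_le_ofReal ?_
      rw [le_div_iff₀ (by positivity)]
      have h5 : |a| * M ≤ 1 * M := by gcongr
      have h6 : |(k : ℝ)| + 1 ≤ M + 2 := by linarith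
      calc ((M : ℝ) - -M) * (|(k : ℝ)| + 1) ≤ (2 * M + 1) * (M + 2) := by
            refine mul_le_mul (by linarith) h6 (by positivity) (by positivity)
        _ = _ := rfl
  · have h0 : {α : ℝ | ⌊a * α⌋ = k} ∩ Set.Icc (-(M : ℝ)) M = ∅ := by
      rw [Set.eq_empty_iff_forall_notMem]
      rintro α ⟨h5, h6⟩
      apply hk
      have h3 : ⌊a * α⌋ = k := h5
      rw [Int.floor_eq_iff] at h3
      have h7 : |a * α| ≤ |a| * M := by
        rw [abs_mul]
        exact mul_le_mul_of_nonneg_left (abs_le.2 h6) (abs_nonneg _)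
      have h9 : |(k : ℝ) - a * α| ≤ 1 := by
        rw [abs_le]
        constructor <;> linarith [h3.1, h3.2]
      have h10 := abs_sub_abs_le_abs_sub (k : ℝ) (a * α)
      linarith
    rw [h0, measure_empty]
    exact bot_le

/-- a separated sequence has few small members -/
lemma separated_card {a : ℕ → ℝ} {δ : ℝ} (hδ : 0 < δ) (ha : ∀ m n, m ≠ n → δ ≤ |a m - a n|) (N : ℕ) {R : ℝ} (hR : 0 ≤ R) :
    (#{n ∈ range N | |a n| < R} : ℝ) ≤ 2 * (R / δ) + 3 := by
  have h1 : #{n ∈ range N | |a n| < R} ≤ #(Icc (-⌈R / δ⌉) ⌈R / δ⌉) := by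
    refine Finset.card_le_card_of_injOn (fun n => ⌊a n / δ⌋) ?_ ?_
    · intro n hn
      have h2 : |a n| < R := (Finset.mem_filter.1 hn).2
      have h3 : |a n / δ| < R / δ := by
        rw [abs_div, abs_of_pos hδ]
        exact div_lt_div_of_pos_right h2 hδ
      have h4 := abs_lt.1 h3
      simp only [coe_Icc, Set.mem_Icc]
      constructor
      · rw [Int.le_floor]
        push_cast
        linarith [Int.le_ceil (R / δ)]
      · have h5 : (⌊a n / δ⌋ : ℝ) ≤ ⌈R / δ⌉ := (Int.floor_le _).trans (h4.2.le.trans (Int.le_ceil _))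
        exact_mod_cast h5
    · intro m _ n _ hmn
      by_contra hne
      have h2 := ha m n hne
      simp only at hmn
      have h3 := Int.abs_sub_lt_one_of_floor_eq_floor hmn
      rw [← sub_div, abs_div, abs_of_pos hδ, div_lt_one hδ] at h3
      linarith
  have h2 : (#(Icc (-⌈R / δ⌉) ⌈R / δ⌉) : ℝ) = 2 * ⌈R / δ⌉ + 1 := by
    rw [Int.card_Icc]
    have h3 : 0 ≤ ⌈R / δ⌉ := Int.ceil_nonneg (by positivity)
    have h4 : ((⌈R / δ⌉ + 1 - -⌈R / δ⌉).toNat : ℤ) = 2 * ⌈R / δ⌉ + 1 := by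
      rw [Int.toNat_of_nonneg (by linarith)]
      ring
    exact_mod_cast h4
  have h3 : (#{n ∈ range N | |a n| < R} : ℝ) ≤ #(Icc (-⌈R / δ⌉) ⌈R / δ⌉) := by exact_mod_cast h1
  have h4 := Int.ceil_lt_add_one (R / δ)
  linarith

/-- **Separated sequences.** All but `N / (log N) ^ U` of the numbers `⌊a_n α⌋`, `n < N`, have the property. -/
theorem separated_density {P : ℤ → Prop} (h : AlmostAlways P) {a : ℕ → ℝ} {δ : ℝ} (hδ : 0 < δ)
    (ha : ∀ m n, m ≠ n → δ ≤ |a m - a n|) :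
    ∀ᵐ α : ℝ, ∀ U : ℕ, ∀ᶠ N : ℕ in atTop, ({n : ℕ | n < N ∧ ¬ P ⌊a n * α⌋}.ncard : ℝ) ≤ N / Real.log N ^ U := by
  have hM : ∀ M : ℕ, ∀ᵐ α ∂(volume.restrict (Set.Icc (-(M : ℝ)) M)), ∀ U : ℕ, ∀ᶠ N : ℕ in atTop,
      ({n : ℕ | n < N ∧ ¬ P ⌊a n * α⌋}.ncard : ℝ) ≤ N / Real.log N ^ U := by
    intro M
    set C : ℝ := max ((2 * M + 1) * (M + 2)) (4 + 2 * M * (2 / δ + 3)) with hC
    refine random_density h _ (fun n α => ⌊a n * α⌋) (fun n => Int.measurable_floor.comp (measurable_const_mul _))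
      (C := C) (δ := 1 / 4) (by norm_num) ?_ ?_
    · intro n k
      refine (mul_density (a n) M k).trans (ENNReal.ofReal_le_ofReal ?_)
      refine div_le_div_of_nonneg_right (le_max_left _ _) (by positivity)
    · intro N
      rcases Nat.eq_zero_or_pos N with rfl | hN
      · simp
      have hN1 : (1 : ℝ) ≤ N := by exact_mod_cast hN
      have hE1 : (1 : ℝ) ≤ (N : ℝ) ^ (1 / 4 : ℝ) := Real.one_le_rpow hN1 (by norm_num)
      have hR1 : (1 : ℝ) ≤ (N : ℝ) ^ (1 / 2 : ℝ) := Real.one_le_rpow hN1 (by norm_num)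
      have hterm : ∀ n ∈ range N, (volume.restrict (Set.Icc (-(M : ℝ)) M))
          {α : ℝ | |((⌊a n * α⌋ : ℤ) : ℝ)| < (N : ℝ) ^ (1 / 4 : ℝ)} ≤
          ENNReal.ofReal (4 * (N : ℝ) ^ (-(1 / 4) : ℝ) + if |a n| < (N : ℝ) ^ (1 / 2 : ℝ) then 2 * (M : ℝ) else 0) := by
        intro n _
        split_ifs with hsm
        · have h1 : (volume.restrict (Set.Icc (-(M : ℝ)) M)) {α : ℝ | |((⌊a n * α⌋ : ℤ) : ℝ)| < (N : ℝ) ^ (1 / 4 : ℝ)} ≤
              (volume.restrict (Set.Icc (-(M : ℝ)) M)) Set.univ := measure_mono (Set.subset_univ _)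
          refine h1.trans ?_
          rw [Measure.restrict_apply_univ, Real.volume_Icc]
          refine ENNReal.ofReal_le_ofReal ?_
          have : (0 : ℝ) ≤ 4 * (N : ℝ) ^ (-(1 / 4) : ℝ) := by positivity
          linarith
        · rw [add_zero]
          push Not at hsm
          have ha0 : a n ≠ 0 := by
            intro h0
            rw [h0, abs_zero] at hsm
            linarith
          set E : ℝ := (N : ℝ) ^ (1 / 4 : ℝ) with hE
          have h4 := volume_affine ha0 0 (-E) (2 * E + 1)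
          refine (Measure.restrict_apply_le _ _).trans (le_trans (measure_mono ?_) (h4.le.trans (ENNReal.ofReal_le_ofReal ?_)))
          · intro α hα
            have h5 := abs_lt.1 (show |((⌊a n * α⌋ : ℤ) : ℝ)| < E from hα)
            have h6 := Int.floor_le (a n * α)
            have h7 := Int.lt_floor_add_one (a n * α)
            simp only [add_zero, Set.mem_ofPred_eq]
            refine ⟨?_, ?_⟩
            · linarith [h5.1]
            · linarith [h5.2]
          · have h5 : (2 * E + 1) / |a n| ≤ (4 * E) / (N : ℝ) ^ (1 / 2 : ℝ) := by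
              refine div_le_div₀ (by positivity) (by linarith) (by positivity) hsm
            refine h5.trans (le_of_eq ?_)
            rw [mul_div_assoc, hE, ← Real.rpow_sub (by linarith)]
            norm_num
      refine (Finset.sum_le_sum hterm).trans ?_
      rw [← ENNReal.ofReal_sum_of_nonneg (fun n _ => by positivity)]
      refine ENNReal.ofReal_le_ofReal ?_
      rw [Finset.sum_add_distrib, Finset.sum_const, card_range, nsmul_eq_mul, ← Finset.sum_filter, Finset.sum_const,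
        nsmul_eq_mul]
      have h1 := separated_card hδ ha N (R := (N : ℝ) ^ (1 / 2 : ℝ)) (by positivity)
      have h34 : (N : ℝ) * (N : ℝ) ^ (-(1 / 4) : ℝ) = (N : ℝ) ^ (1 - 1 / 4 : ℝ) := by
        rw [sub_eq_add_neg, Real.rpow_add (by linarith), Real.rpow_one]
      have h12 : (N : ℝ) ^ (1 / 2 : ℝ) ≤ (N : ℝ) ^ (1 - 1 / 4 : ℝ) := Real.rpow_le_rpow_of_exponent_le hN1 (by norm_num)
      have h01 : (1 : ℝ) ≤ (N : ℝ) ^ (1 - 1 / 4 : ℝ) := Real.one_le_rpow hN1 (by norm_num)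
      have hM0 : (0 : ℝ) ≤ M := Nat.cast_nonneg M
      calc (N : ℝ) * (4 * (N : ℝ) ^ (-(1 / 4) : ℝ)) + (#{n ∈ range N | |a n| < (N : ℝ) ^ (1 / 2 : ℝ)} : ℝ) * (2 * M)
          ≤ 4 * (N : ℝ) ^ (1 - 1 / 4 : ℝ) + (2 * ((N : ℝ) ^ (1 / 2 : ℝ) / δ) + 3) * (2 * M) := by
            rw [mul_left_comm, h34]
            gcongr
        _ ≤ 4 * (N : ℝ) ^ (1 - 1 / 4 : ℝ) + (2 * ((N : ℝ) ^ (1 - 1 / 4 : ℝ) / δ) + 3 * (N : ℝ) ^ (1 - 1 / 4 : ℝ)) * (2 * M) := by
            gcongr
            linarith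
        _ = (4 + 2 * M * (2 / δ + 3)) * (N : ℝ) ^ (1 - 1 / 4 : ℝ) := by ring
        _ ≤ C * (N : ℝ) ^ (1 - 1 / 4 : ℝ) := by
            gcongr
            exact le_max_right _ _
  have h1 : ∀ M : ℕ, ∀ᵐ α : ℝ, α ∈ Set.Icc (-(M : ℝ)) M → ∀ U : ℕ, ∀ᶠ N : ℕ in atTop,
      ({n : ℕ | n < N ∧ ¬ P ⌊a n * α⌋}.ncard : ℝ) ≤ N / Real.log N ^ U :=
    fun M => (ae_restrict_iff' measurableSet_Icc).1 (hM M)
  filter_upwards [ae_all_iff.2 h1] with α hα
  obtain ⟨M, hM'⟩ := exists_nat_ge |α|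
  exact hα M (abs_le.1 hM')

end Pool.Agent.N918.MS
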