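import Pool.Agent.N918.MS.Fam
import Pool.Agent.N918.MS.Sep

/-! Random heights and sets of real numbers with a saving of a power of the logarithm (helper918). -/

set_option autoImplicit false

namespace Pool.Agent.N918.MS

open Finset MeasureTheory Filter
open scoped ENNReal Topology

/-- the set `B` has measure at most `C X / (log X) ^ V` in `[X, 2X]` -/
def LogRare (V : ℕ) (B : Set ℝ) : Prop :=
  ∃ C : ℝ, ∀ X : ℝ, 2 ≤ X → volume (B ∩ Set.Icc X (2 * X)) ≤ ENNReal.ofReal (C * (X / Real.log X ^ V))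

/-- Random heights `T_0, T_1, …`, of any dependence: the probability of `T_n ∈ S` is at most `C |S| / X` for all measurable
subsets `S` of `[X, 2X]`, `X ≥ 1`. -/
def Spread {Ω : Type} [MeasurableSpace Ω] (μ : Measure Ω) (T : ℕ → Ω → ℝ) (C : ℝ) : Prop :=
  ∀ (n : ℕ) (X : ℝ), 1 ≤ X → ∀ S : Set ℝ, MeasurableSet S → S ⊆ Set.Icc X (2 * X) →
    μ {ω | T n ω ∈ S} ≤ ENNReal.ofReal (C / X) * volume S

lemma LogRare.shell {V : ℕ} {B : Set ℝ} (hB : LogRare V B) : ∃ C₁ : ℝ, 0 ≤ C₁ ∧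
    ∀ {Ω : Type} [MeasurableSpace Ω] (μ : Measure Ω) (T : ℕ → Ω → ℝ) (C : ℝ), 0 ≤ C → Spread μ T C →
      ∀ (n : ℕ) (X : ℝ), 2 ≤ X → μ {ω | T n ω ∈ B ∧ T n ω ∈ Set.Icc X (2 * X)} ≤
        ENNReal.ofReal (C * C₁ / Real.log X ^ V) := by
  obtain ⟨C₁, hC₁⟩ := hB
  refine ⟨|C₁|, abs_nonneg _, ?_⟩
  intro Ω _ μ T C hC hT n X hX
  have hX0 : 0 < X := by linarith
  have hlX : 0 < Real.log X := Real.log_pos (by linarith)
  set S : Set ℝ := toMeasurable volume (B ∩ Set.Icc X (2 * X)) ∩ Set.Icc X (2 * X) with hS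
  have hSm : MeasurableSet S := (measurableSet_toMeasurable _ _).inter measurableSet_Icc
  have h1 := hT n X (by linarith) S hSm Set.inter_subset_right
  have h2 : volume S ≤ ENNReal.ofReal (|C₁| * (X / Real.log X ^ V)) := by
    refine (measure_mono Set.inter_subset_left).trans ?_
    rw [measure_toMeasurable]
    refine (hC₁ X hX).trans (ENNReal.ofReal_le_ofReal ?_)
    exact mul_le_mul_of_nonneg_right (le_abs_self _) (by positivity)
  have h3 : {ω | T n ω ∈ B ∧ T n ω ∈ Set.Icc X (2 * X)} ⊆ {ω | T n ω ∈ S} := by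
    rintro ω ⟨h4, h5⟩
    exact ⟨subset_toMeasurable _ _ ⟨h4, h5⟩, h5⟩
  refine (measure_mono h3).trans (h1.trans ?_)
  refine (mul_le_mul_right h2 _).trans ?_
  rw [← ENNReal.ofReal_mul (by positivity)]
  refine ENNReal.ofReal_le_ofReal (le_of_eq ?_)
  field_simp

/-- the probability that `T_n` belongs to the set, if `T_n ≥ Y` -/
theorem LogRare.meas {V : ℕ} {B : Set ℝ} (hB : LogRare (V + 2) B)
    {Ω : Type} [MeasurableSpace Ω] (μ : Measure Ω) (T : ℕ → Ω → ℝ) {C : ℝ} (hC : 0 ≤ C) (hT : Spread μ T C) :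
    ∃ C₂ : ℝ, 0 ≤ C₂ ∧ ∀ (n : ℕ) (Y : ℝ), 2 ≤ Y → (∀ᵐ ω ∂μ, Y ≤ T n ω) → μ {ω | T n ω ∈ B} ≤
      ENNReal.ofReal (C₂ / Real.log Y ^ V) := by
  obtain ⟨C₁, hC₁0, hC₁⟩ := hB.shell
  have hsum : Summable fun j : ℕ => 1 / (((j : ℝ) + 1) * Real.log 2) ^ 2 := by
    have h1 := (summable_nat_add_iff 1).2 (Real.summable_one_div_nat_pow.2 (one_lt_two))
    refine (h1.mul_left (1 / Real.log 2 ^ 2)).congr fun j => ?_
    push_cast
    rw [mul_pow]
    field_simp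
  have hl2 : 0 < Real.log 2 := Real.log_pos one_lt_two
  refine ⟨C * C₁ * ∑' j : ℕ, 1 / (((j : ℝ) + 1) * Real.log 2) ^ 2, ?_, ?_⟩
  · have : 0 ≤ ∑' j : ℕ, 1 / (((j : ℝ) + 1) * Real.log 2) ^ 2 := tsum_nonneg fun j => by positivity
    positivity
  intro n Y hY hgrow
  have hY0 : 0 < Y := by linarith
  have hlY : 0 < Real.log Y := Real.log_pos (by linarith)
  have hcov : ∀ᵐ ω ∂μ, ω ∈ {ω | T n ω ∈ B} →
      ω ∈ ⋃ j : ℕ, {ω | T n ω ∈ B ∧ T n ω ∈ Set.Icc (Y * 2 ^ j) (2 * (Y * 2 ^ j))} := by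
    filter_upwards [hgrow] with ω h1 hω
    have h2 : (1 : ℝ) ≤ T n ω / Y := by rwa [one_le_div hY0]
    obtain ⟨m, hm1, hm2⟩ := exists_nat_pow_near h2 one_lt_two
    rw [le_div_iff₀ hY0] at hm1
    rw [div_lt_iff₀ hY0] at hm2
    refine Set.mem_iUnion.2 ⟨m, hω, ?_, ?_⟩
    · linarith
    · rw [pow_succ] at hm2
      linarith
  refine (measure_mono_ae hcov).trans ((measure_iUnion_le _).trans ?_)
  have hterm : ∀ j : ℕ, μ {ω | T n ω ∈ B ∧ T n ω ∈ Set.Icc (Y * 2 ^ j) (2 * (Y * 2 ^ j))} ≤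
      ENNReal.ofReal (C * C₁ / Real.log Y ^ V * (1 / (((j : ℝ) + 1) * Real.log 2) ^ 2)) := by
    intro j
    have hj : (1 : ℝ) ≤ 2 ^ j := one_le_pow₀ one_le_two
    refine (hC₁ μ T C hC hT n (Y * 2 ^ j) (by nlinarith)).trans (ENNReal.ofReal_le_ofReal ?_)
    have h3 : Real.log (Y * 2 ^ j) = Real.log Y + j * Real.log 2 := by
      rw [Real.log_mul hY0.ne' (by positivity), Real.log_pow]
    have h4 : Real.log 2 ≤ Real.log Y := Real.log_le_log (by norm_num) hY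
    have h5 : Real.log Y ≤ Real.log (Y * 2 ^ j) := by
      rw [h3]
      have : 0 ≤ (j : ℝ) * Real.log 2 := by positivity
      linarith
    have h6 : ((j : ℝ) + 1) * Real.log 2 ≤ Real.log (Y * 2 ^ j) := by
      rw [h3]
      linarith
    have h7 : 0 < Real.log (Y * 2 ^ j) := hlY.trans_le h5
    rw [div_mul_div_comm, mul_one, pow_add]
    refine div_le_div_of_nonneg_left (by positivity) (by positivity) ?_
    exact mul_le_mul (pow_le_pow_left₀ hlY.le h5 _) (pow_le_pow_left₀ (by positivity) h6 _) (by positivity) (by positivity)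
  have hsum2 : Summable fun j : ℕ => C * C₁ / Real.log Y ^ V * (1 / (((j : ℝ) + 1) * Real.log 2) ^ 2) := hsum.mul_left _
  refine (ENNReal.tsum_le_tsum hterm).trans ?_
  rw [← ENNReal.ofReal_tsum_of_nonneg (fun j => by positivity) hsum2, tsum_mul_left]
  refine ENNReal.ofReal_le_ofReal (le_of_eq ?_)
  ring

/-- **Fast heights.** -/
theorem LogRare.eventually {V : ℕ} {B : Set ℝ} (hB : LogRare (V + 2) B)
    {Ω : Type} [MeasurableSpace Ω] (μ : Measure Ω) [IsFiniteMeasure μ] (T : ℕ → Ω → ℝ) {C δ : ℝ} (hC : 0 ≤ C)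
    (hT : Spread μ T C) (hV : 1 < δ * V) (hg : ∀ n : ℕ, ∀ᵐ ω ∂μ, Real.exp ((n : ℝ) ^ δ) ≤ T n ω) :
    ∀ᵐ ω ∂μ, ∀ᶠ n in atTop, T n ω ∉ B := by
  obtain ⟨C₂, hC₂, h3⟩ := hB.meas μ T hC hT
  have hsum : ∑' n : ℕ, μ {ω | T (n + 1) ω ∈ B} ≠ ∞ := by
    have h4 : Summable fun n : ℕ => C₂ * (n : ℝ) ^ (-(δ * V)) :=
      (Real.summable_nat_rpow.2 (by linarith)).mul_left _
    have h5 : Summable fun n : ℕ => C₂ * ((n + 1 : ℕ) : ℝ) ^ (-(δ * V)) := (summable_nat_add_iff 1).2 h4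
    refine ne_top_of_le_ne_top ?_ (ENNReal.tsum_le_tsum (g := fun n : ℕ =>
      ENNReal.ofReal (C₂ * ((n + 1 : ℕ) : ℝ) ^ (-(δ * V)))) fun n => ?_)
    · rw [← ENNReal.ofReal_tsum_of_nonneg (fun n => by positivity) h5]
      exact ENNReal.ofReal_ne_top
    · have hδ : 0 < δ := by
        by_contra h
        push Not at h
        have : (0 : ℝ) ≤ V := Nat.cast_nonneg _
        nlinarith
      have hn : (1 : ℝ) ≤ ((n + 1 : ℕ) : ℝ) := by exact_mod_cast Nat.succ_le_succ (Nat.zero_le n)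
      have h6 : (1 : ℝ) ≤ ((n + 1 : ℕ) : ℝ) ^ δ := Real.one_le_rpow hn hδ.le
      have h7 : (2 : ℝ) ≤ Real.exp (((n + 1 : ℕ) : ℝ) ^ δ) := by
        have h8 := Real.add_one_le_exp (((n + 1 : ℕ) : ℝ) ^ δ)
        linarith
      refine (h3 (n + 1) _ h7 (hg (n + 1))).trans (ENNReal.ofReal_le_ofReal (le_of_eq ?_))
      rw [Real.log_exp, Real.rpow_neg (by positivity), Real.rpow_mul (by positivity), Real.rpow_natCast]
      rfl
  filter_upwards [ae_eventually_notMem hsum] with ω hω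
  obtain ⟨N, hN⟩ := eventually_atTop.1 hω
  refine eventually_atTop.2 ⟨N + 1, fun n hn => ?_⟩
  have h6 := hN (n - 1) (by omega)
  rw [Nat.sub_add_cancel (by omega)] at h6
  exact h6

/-- **Heights of polynomial growth.** -/
theorem LogRare.count {U : ℕ} {B : Set ℝ} (hB : LogRare (U + 2 + 2) B)
    {Ω : Type} [MeasurableSpace Ω] (μ : Measure Ω) [IsFiniteMeasure μ] (T : ℕ → Ω → ℝ) {C : ℝ} (hC : 0 ≤ C)
    (hT : Spread μ T C) {κ : ℝ} (hκ : 0 < κ)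
    (hg : ∀ N : ℕ, (({n : ℕ | n < N ∧ ¬ ∀ᵐ ω ∂μ, (N : ℝ) ^ κ ≤ T n ω}.ncard : ℝ) ≤ C * (N : ℝ) ^ (1 - κ))) :
    ∀ᵐ ω ∂μ, ∀ᶠ N : ℕ in atTop, ({n : ℕ | n < N ∧ T n ω ∈ B}.ncard : ℝ) ≤ N / Real.log N ^ U := by
  classical
  obtain ⟨C₂, hC₂, h3⟩ := hB.meas μ T hC hT
  have hl2 : 0 < Real.log 2 := Real.log_pos one_lt_two
  set E : ℕ → Set Ω := fun n => toMeasurable μ {ω | T n ω ∈ B} with hE
  have hEm : ∀ n, MeasurableSet (E n) := fun n => measurableSet_toMeasurable _ _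
  have hEμ : ∀ n, μ (E n) = μ {ω | T n ω ∈ B} := fun n => measure_toMeasurable _
  set f : ℕ → Ω → ℝ≥0∞ := fun j ω => ∑ n ∈ range (2 ^ j), Set.indicator (E n) (fun _ => (1 : ℝ≥0∞)) ω with hf
  set ρ : ℝ := (2 : ℝ) ^ (-κ) with hρ
  have hρ0 : 0 < ρ := by positivity
  have hρ1 : ρ < 1 := Real.rpow_lt_one_of_one_lt_of_neg one_lt_two (by linarith)
  set M : ℝ := (μ Set.univ).toReal with hM
  have hM0 : 0 ≤ M := ENNReal.toReal_nonneg
  -- large indices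
  obtain ⟨j₀, hj₀⟩ : ∃ j₀ : ℕ, 1 ≤ κ * j₀ := by
    obtain ⟨j₀, hj₀⟩ := exists_nat_ge (1 / κ)
    exact ⟨j₀, by rwa [div_le_iff₀ hκ, mul_comm] at hj₀⟩
  have hint : ∀ j : ℕ, j₀ ≤ j → ∫⁻ ω, f j ω ∂μ ≤ ENNReal.ofReal (C * M * (2 : ℝ) ^ j * ρ ^ j +
      2 ^ j * (C₂ / (κ * j * Real.log 2) ^ (U + 2))) := by
    intro j hj
    have hj' : 1 ≤ κ * j := hj₀.trans (by
      have : (j₀ : ℝ) ≤ j := by exact_mod_cast hj
      gcongr)
    simp only [hf]
    rw [lintegral_finsetSum _ (fun n _ => measurable_const.indicator (hEm n))]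
    have h2j : ((2 ^ j : ℕ) : ℝ) ^ κ = (2 : ℝ) ^ (κ * j) := by
      push_cast
      rw [← Real.rpow_natCast 2 j, ← Real.rpow_mul (by norm_num), mul_comm]
    have hY2 : (2 : ℝ) ≤ ((2 ^ j : ℕ) : ℝ) ^ κ := by
      rw [h2j]
      calc (2 : ℝ) = 2 ^ (1 : ℝ) := (Real.rpow_one _).symm
        _ ≤ 2 ^ (κ * j) := Real.rpow_le_rpow_of_exponent_le one_le_two hj'
    have hlogY : Real.log (((2 ^ j : ℕ) : ℝ) ^ κ) = κ * j * Real.log 2 := by
      rw [h2j, Real.log_rpow (by norm_num)]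
    have h1 : ∀ n ∈ range (2 ^ j), ∫⁻ ω, Set.indicator (E n) (fun _ => (1 : ℝ≥0∞)) ω ∂μ ≤
        ENNReal.ofReal ((if ¬ ∀ᵐ ω ∂μ, (((2 ^ j : ℕ) : ℝ)) ^ κ ≤ T n ω then M else 0) +
          C₂ / (κ * j * Real.log 2) ^ (U + 2)) := by
      intro n _
      rw [lintegral_indicator_const (hEm n), one_mul, hEμ]
      by_cases h4 : ∀ᵐ ω ∂μ, (((2 ^ j : ℕ) : ℝ)) ^ κ ≤ T n ω
      · rw [if_neg (not_not.2 h4), zero_add, ← hlogY]
        exact h3 n _ hY2 h4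
      · rw [if_pos h4]
        have h5 : μ {ω | T n ω ∈ B} ≤ μ Set.univ := measure_mono (Set.subset_univ _)
        refine h5.trans ?_
        rw [← ENNReal.ofReal_toReal (measure_ne_top μ Set.univ)]
        refine ENNReal.ofReal_le_ofReal ?_
        have : 0 ≤ C₂ / (κ * j * Real.log 2) ^ (U + 2) := by positivity
        linarith
    refine (Finset.sum_le_sum h1).trans ?_
    rw [← ENNReal.ofReal_sum_of_nonneg (fun n _ => by
      have : 0 ≤ C₂ / (κ * j * Real.log 2) ^ (U + 2) := by positivity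
      split_ifs <;> positivity)]
    refine ENNReal.ofReal_le_ofReal ?_
    rw [Finset.sum_add_distrib, Finset.sum_const, card_range, nsmul_eq_mul, ← Finset.sum_filter, Finset.sum_const,
      nsmul_eq_mul]
    have h6 := hg (2 ^ j)
    have h7 : (#{n ∈ range (2 ^ j) | ¬ ∀ᵐ ω ∂μ, (((2 ^ j : ℕ) : ℝ)) ^ κ ≤ T n ω} : ℝ) ≤ C * ((2 ^ j : ℕ) : ℝ) ^ (1 - κ) := by
      refine le_trans (le_of_eq ?_) h6
      have : {n : ℕ | n < 2 ^ j ∧ ¬ ∀ᵐ ω ∂μ, (((2 ^ j : ℕ) : ℝ)) ^ κ ≤ T n ω} =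
          ↑({n ∈ range (2 ^ j) | ¬ ∀ᵐ ω ∂μ, (((2 ^ j : ℕ) : ℝ)) ^ κ ≤ T n ω} : Finset ℕ) := by
        ext n
        simp
      rw [this, Set.ncard_coe_finset]
    have h8 : ((2 ^ j : ℕ) : ℝ) ^ (1 - κ) = (2 : ℝ) ^ j * ρ ^ j := by
      push_cast
      rw [hρ, ← mul_pow, ← Real.rpow_natCast 2 j, ← Real.rpow_mul (by norm_num), mul_comm (j : ℝ), Real.rpow_mul (by norm_num),
        Real.rpow_natCast, sub_eq_add_neg, Real.rpow_add (by norm_num), Real.rpow_one]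
    rw [h8] at h7
    have h9 : (#{n ∈ range (2 ^ j) | ¬ ∀ᵐ ω ∂μ, (((2 ^ j : ℕ) : ℝ)) ^ κ ≤ T n ω} : ℝ) * M ≤ C * (2 ^ j * ρ ^ j) * M :=
      mul_le_mul_of_nonneg_right h7 hM0
    push_cast at h9 ⊢
    linarith
  set t : ℕ → ℝ := fun j => (2 : ℝ) ^ j / (2 * (j + 1) ^ U) with ht
  have htpos : ∀ j, 0 < t j := fun j => by simp only [ht]; positivity
  have hmk : ∀ j : ℕ, μ {ω | ENNReal.ofReal (t (j + (j₀ + 1))) ≤ f (j + (j₀ + 1)) ω} ≤
      ENNReal.ofReal (2 * (C * M) * ((((j + (j₀ + 1) : ℕ) : ℝ) + 1) ^ U * ρ ^ (j + (j₀ + 1))) +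
        2 * C₂ * 2 ^ U / (κ * Real.log 2) ^ (U + 2) * (1 / ((j + (j₀ + 1) : ℕ) : ℝ) ^ 2)) := by
    intro i
    set j : ℕ := i + (j₀ + 1) with hjdef
    have hj1 : 1 ≤ j := by omega
    have hjr : (1 : ℝ) ≤ j := by exact_mod_cast hj1
    have hfm : Measurable (f j) := by
      simp only [hf]
      exact Finset.measurable_sum _ fun n _ => measurable_const.indicator (hEm n)
    have h1 := mul_meas_ge_le_lintegral hfm (ENNReal.ofReal (t j)) (μ := μ)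
    have h2 := h1.trans (hint j (by omega))
    have h3 : μ {ω | ENNReal.ofReal (t j) ≤ f j ω} ≤ ENNReal.ofReal (C * M * (2 : ℝ) ^ j * ρ ^ j +
      2 ^ j * (C₂ / (κ * j * Real.log 2) ^ (U + 2))) / ENNReal.ofReal (t j) := by
      rw [ENNReal.le_div_iff_mul_le (Or.inl (by simpa using htpos j)) (Or.inl ENNReal.ofReal_ne_top), mul_comm]
      exact h2
    refine h3.trans ?_
    rw [← ENNReal.ofReal_div_of_pos (htpos j)]
    refine ENNReal.ofReal_le_ofReal ?_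
    rw [div_le_iff₀ (htpos j)]
    have h8 : (2 * (C * M) * (((j : ℝ) + 1) ^ U * ρ ^ j) + 2 * C₂ * 2 ^ U / (κ * Real.log 2) ^ (U + 2) * (1 / (j : ℝ) ^ 2)) *
        t j = C * M * (2 : ℝ) ^ j * ρ ^ j +
          2 ^ j * (C₂ * (2 ^ U / ((κ * Real.log 2) ^ (U + 2) * (j : ℝ) ^ 2 * ((j : ℝ) + 1) ^ U))) := by
      simp only [ht]
      field_simp
    rw [h8]
    have h9 : C₂ / (κ * j * Real.log 2) ^ (U + 2) ≤
        C₂ * (2 ^ U / ((κ * Real.log 2) ^ (U + 2) * (j : ℝ) ^ 2 * ((j : ℝ) + 1) ^ U)) := by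
      rw [div_eq_mul_one_div]
      refine mul_le_mul_of_nonneg_left ?_ hC₂
      rw [div_le_div_iff₀ (by positivity) (by positivity)]
      have h10 : κ * j * Real.log 2 = (κ * Real.log 2) * j := by ring
      have h11 : ((j : ℝ) + 1) ^ U ≤ 2 ^ U * (j : ℝ) ^ U := by
        rw [← mul_pow]
        gcongr
        linarith
      rw [h10, mul_pow (κ * Real.log 2) (j : ℝ) (U + 2), pow_add (j : ℝ) U 2, one_mul]
      calc (κ * Real.log 2) ^ (U + 2) * (j : ℝ) ^ 2 * ((j : ℝ) + 1) ^ U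
          ≤ (κ * Real.log 2) ^ (U + 2) * (j : ℝ) ^ 2 * (2 ^ U * (j : ℝ) ^ U) := by gcongr
        _ = 2 ^ U * ((κ * Real.log 2) ^ (U + 2) * ((j : ℝ) ^ U * (j : ℝ) ^ 2)) := by ring
    gcongr
  have hsummable : Summable fun j : ℕ => 2 * (C * M) * ((((j + (j₀ + 1) : ℕ) : ℝ) + 1) ^ U * ρ ^ (j + (j₀ + 1))) +
        2 * C₂ * 2 ^ U / (κ * Real.log 2) ^ (U + 2) * (1 / ((j + (j₀ + 1) : ℕ) : ℝ) ^ 2) := by
    refine Summable.add (Summable.mul_left _ ?_) (Summable.mul_left _ ?_)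
    · have h1 := summable_pow_mul_geometric_of_norm_lt_one U (r := ρ) (by
        rw [Real.norm_of_nonneg hρ0.le]; exact hρ1)
      have h2 := (summable_nat_add_iff (j₀ + 2)).2 h1
      have h3 := h2.mul_left ρ⁻¹
      refine h3.congr fun j => ?_
      push_cast
      have : j + (j₀ + 2) = j + (j₀ + 1) + 1 := by ring
      rw [this, pow_succ]
      field_simp
      ring_nf
    · exact (summable_nat_add_iff (j₀ + 1)).2 (Real.summable_one_div_nat_pow.2 (one_lt_two))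
  have hsum : ∑' j : ℕ, μ {ω | ENNReal.ofReal (t (j + (j₀ + 1))) ≤ f (j + (j₀ + 1)) ω} ≠ ∞ := by
    refine ne_top_of_le_ne_top ?_ (ENNReal.tsum_le_tsum hmk)
    rw [← ENNReal.ofReal_tsum_of_nonneg (fun j => by positivity) hsummable]
    exact ENNReal.ofReal_ne_top
  filter_upwards [ae_eventually_notMem hsum] with ω hω
  obtain ⟨J, hJ⟩ := eventually_atTop.1 hω
  refine eventually_atTop.2 ⟨2 ^ (J + j₀ + 2), fun N hN => ?_⟩
  have hN1 : 2 ≤ N := le_trans (by rw [pow_succ]; have := Nat.one_le_two_pow (n := J + j₀ + 1); omega) hN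
  set j : ℕ := Nat.log 2 N with hj
  have hjN : 2 ^ j ≤ N := Nat.pow_log_le_self 2 (by omega)
  have hNj : N < 2 ^ (j + 1) := Nat.lt_pow_succ_log_self (by norm_num) N
  have hJj : J + j₀ + 2 ≤ j := Nat.le_log_of_pow_le (by norm_num) hN
  have h1 := hJ (j - j₀) (by omega)
  have hjj : j - j₀ + (j₀ + 1) = j + 1 := by omega
  rw [hjj] at h1
  have h1' : f (j + 1) ω < ENNReal.ofReal (t (j + 1)) := not_le.1 h1
  have h2 : f (j + 1) ω = ((#{n ∈ range (2 ^ (j + 1)) | ω ∈ E n} : ℕ) : ℝ≥0∞) := by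
    simp only [hf, Set.indicator_apply]
    rw [Finset.sum_boole]
  rw [h2, ← ENNReal.ofReal_natCast, ENNReal.ofReal_lt_ofReal_iff (htpos _)] at h1'
  have h3 : ({n : ℕ | n < N ∧ T n ω ∈ B}.ncard : ℝ) ≤ (#{n ∈ range (2 ^ (j + 1)) | ω ∈ E n} : ℕ) := by
    have : {n : ℕ | n < N ∧ T n ω ∈ B}.ncard ≤ ((({n ∈ range (2 ^ (j + 1)) | ω ∈ E n} : Finset ℕ) : Set ℕ)).ncard := by
      refine Set.ncard_le_ncard ?_ (Finset.finite_toSet _)
      rintro n ⟨hn1, hn2⟩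
      simp only [Finset.coe_filter, Finset.mem_range, Set.mem_ofPred_eq]
      exact ⟨hn1.trans hNj, subset_toMeasurable _ _ hn2⟩
    rw [Set.ncard_coe_finset] at this
    exact_mod_cast this
  refine h3.trans (h1'.le.trans ?_)
  simp only [ht]
  have hlogpos : 0 < Real.log N := Real.log_pos (by exact_mod_cast hN1)
  have hlog : Real.log N ≤ ((j + 1 : ℕ) : ℝ) + 1 := by
    have h4 : Real.log N ≤ Real.log ((2 : ℝ) ^ (j + 1)) := by
      refine Real.log_le_log (by exact_mod_cast (by omega : 0 < N)) ?_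
      exact_mod_cast hNj.le
    rw [Real.log_pow] at h4
    have h5 : Real.log 2 ≤ 1 := by
      have := Real.log_two_lt_d9
      linarith
    have h6 : (0 : ℝ) ≤ ((j + 1 : ℕ) : ℝ) := Nat.cast_nonneg _
    nlinarith
  have hjN' : (2 : ℝ) ^ j ≤ N := by exact_mod_cast hjN
  calc (2 : ℝ) ^ (j + 1) / (2 * (((j + 1 : ℕ) : ℝ) + 1) ^ U) = (2 : ℝ) ^ j / ((((j + 1 : ℕ) : ℝ) + 1) ^ U) := by
        rw [pow_succ]
        field_simp
    _ ≤ N / Real.log N ^ U := by gcongr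

end Pool.Agent.N918.MS
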