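import Pool.Agent.N918.MS.LogH

/-! Separated sequences of heights (helper918). -/

set_option autoImplicit false

namespace Pool.Agent.N918.MS

open Finset MeasureTheory Filter
open scoped ENNReal Topology

lemma spread_steep {A A' c : ℝ} (hc : 0 < c) (h h' : ℕ → ℝ → ℝ)
    (hh : ∀ n : ℕ, ∀ x ∈ Set.Icc A A', HasDerivAt (h n) (h' n x) x ∧ 0 < h n x ∧ c * h n x ≤ h' n x) :
    Spread (volume.restrict (Set.Icc A A')) h (1 / c) := by
  intro n X hX S hS hSX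
  exact steep_dens hc (hh n) hX hS hSX

/-- **Separated sequences.** -/
theorem LogRare.separated {U : ℕ} {B : Set ℝ} (hB : LogRare (U + 2 + 2) B) {a : ℕ → ℝ} (ha0 : ∀ n, 0 < a n) {δ : ℝ}
    (hδ : 0 < δ) (ha : ∀ m n, m ≠ n → δ ≤ |a m - a n|) :
    ∀ᵐ x : ℝ, 0 < x → ∀ᶠ N : ℕ in atTop, ({n : ℕ | n < N ∧ a n * x ∈ B}.ncard : ℝ) ≤ N / Real.log N ^ U := by
  have h1 : ∀ m : ℕ, ∀ᵐ x : ℝ, x ∈ Set.Icc (1 / ((m : ℝ) + 1)) (m + 1) →
      ∀ᶠ N : ℕ in atTop, ({n : ℕ | n < N ∧ a n * x ∈ B}.ncard : ℝ) ≤ N / Real.log N ^ U := by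
    intro m
    have hm0 : (0 : ℝ) < (m : ℝ) + 1 := by positivity
    have hm : (0 : ℝ) < 1 / ((m : ℝ) + 1) := by positivity
    rw [← ae_restrict_iff' measurableSet_Icc]
    have hsp : Spread (volume.restrict (Set.Icc (1 / ((m : ℝ) + 1)) (m + 1))) (fun n x => a n * x)
        (1 / (1 / ((m : ℝ) + 1))) := by
      refine spread_steep hm (fun n x => a n * x) (fun n _ => a n) fun n x hx => ?_
      have hx0 : 0 < x := lt_of_lt_of_le hm hx.1
      refine ⟨by simpa using (hasDerivAt_id x).const_mul (a n), mul_pos (ha0 n) hx0, ?_⟩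
      have h2 : x / ((m : ℝ) + 1) ≤ 1 := by
        rw [div_le_one (by positivity)]
        exact hx.2
      calc 1 / ((m : ℝ) + 1) * (a n * x) = a n * (x / (m + 1)) := by ring
        _ ≤ a n * 1 := mul_le_mul_of_nonneg_left h2 (ha0 n).le
        _ = a n := mul_one _
    have hC0 : (0 : ℝ) ≤ 2 * ((m + 1) / δ) + 3 := by positivity
    have hsp' : Spread (volume.restrict (Set.Icc (1 / ((m : ℝ) + 1)) (m + 1))) (fun n x => a n * x)
        (max (1 / (1 / ((m : ℝ) + 1))) (2 * ((m + 1) / δ) + 3)) := by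
      intro n X hX S hS hSX
      refine (hsp n X hX S hS hSX).trans (mul_le_mul_left (ENNReal.ofReal_le_ofReal ?_) _)
      exact div_le_div_of_nonneg_right (le_max_left _ _) (by linarith)
    refine hB.count _ (fun n x => a n * x) (le_max_of_le_right hC0) hsp' (κ := 1 / 2) (by norm_num) fun N => ?_
    rcases Nat.eq_zero_or_pos N with rfl | hN
    · simp only [not_lt_zero, false_and, Set.ofPred_false, Set.ncard_empty, Nat.cast_zero]
      positivity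
    have hN1 : (1 : ℝ) ≤ N := by exact_mod_cast hN
    have hN2 : (1 : ℝ) ≤ (N : ℝ) ^ (1 / 2 : ℝ) := Real.one_le_rpow hN1 (by norm_num)
    have h2 := separated_card hδ ha N (R := (m + 1) * (N : ℝ) ^ (1 / 2 : ℝ)) (by positivity)
    have h3 : ({n : ℕ | n < N ∧ ¬ ∀ᵐ x ∂(volume.restrict (Set.Icc (1 / ((m : ℝ) + 1)) (m + 1))),
        (N : ℝ) ^ (1 / 2 : ℝ) ≤ a n * x}.ncard : ℝ) ≤ (#{n ∈ range N | |a n| < (m + 1) * (N : ℝ) ^ (1 / 2 : ℝ)} : ℝ) := by
      have h4 : {n : ℕ | n < N ∧ ¬ ∀ᵐ x ∂(volume.restrict (Set.Icc (1 / ((m : ℝ) + 1)) (m + 1))),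
          (N : ℝ) ^ (1 / 2 : ℝ) ≤ a n * x} ⊆ ↑({n ∈ range N | |a n| < (m + 1) * (N : ℝ) ^ (1 / 2 : ℝ)} : Finset ℕ) := by
        rintro n ⟨hn1, hn2⟩
        simp only [Finset.coe_filter, Finset.mem_range, Set.mem_ofPred_eq]
        refine ⟨hn1, ?_⟩
        by_contra hge
        push Not at hge
        apply hn2
        rw [ae_restrict_iff' measurableSet_Icc]
        refine Eventually.of_forall fun x hx => ?_
        rw [abs_of_pos (ha0 n)] at hge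
        calc (N : ℝ) ^ (1 / 2 : ℝ) = ((m + 1) * (N : ℝ) ^ (1 / 2 : ℝ)) * (1 / (m + 1)) := by field_simp
          _ ≤ a n * x := mul_le_mul hge hx.1 hm.le (ha0 n).le
      have h5 := Set.ncard_le_ncard h4 (Finset.finite_toSet _)
      rw [Set.ncard_coe_finset] at h5
      exact_mod_cast h5
    refine (h3.trans h2).trans ?_
    have h4 : (N : ℝ) ^ (1 - 1 / 2 : ℝ) = (N : ℝ) ^ (1 / 2 : ℝ) := by norm_num
    rw [h4]
    calc 2 * ((m + 1) * (N : ℝ) ^ (1 / 2 : ℝ) / δ) + 3 ≤ 2 * ((m + 1) * (N : ℝ) ^ (1 / 2 : ℝ) / δ) + 3 * (N : ℝ) ^ (1 / 2 : ℝ) := by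
          linarith
      _ = (2 * ((m + 1) / δ) + 3) * (N : ℝ) ^ (1 / 2 : ℝ) := by ring
      _ ≤ _ := mul_le_mul_of_nonneg_right (le_max_right _ _) (by positivity)
  filter_upwards [ae_all_iff.2 h1] with x hx hx0
  obtain ⟨m₁, hm₁⟩ := exists_nat_ge x
  obtain ⟨m₂, hm₂⟩ := exists_nat_one_div_lt hx0
  refine hx (max m₁ m₂) ⟨?_, ?_⟩
  · have h2 : (1 : ℝ) / (((max m₁ m₂ : ℕ) : ℝ) + 1) ≤ 1 / ((m₂ : ℝ) + 1) := by
      refine one_div_le_one_div_of_le (by positivity) ?_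
      have : ((m₂ : ℕ) : ℝ) ≤ ((max m₁ m₂ : ℕ) : ℝ) := by exact_mod_cast le_max_right m₁ m₂
      linarith
    linarith
  · have : ((m₁ : ℕ) : ℝ) ≤ ((max m₁ m₂ : ℕ) : ℝ) := by exact_mod_cast le_max_left m₁ m₂
    linarith

end Pool.Agent.N918.MS
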