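import Pool.Agent.N918.MS.Rand

/-! Metric sequences and sets of integers with a saving of all powers of the logarithm (helper918). -/

set_option autoImplicit false

namespace Pool.Agent.N918.MS

open Finset MeasureTheory Filter
open scoped ENNReal Topology

lemma volume_affine {a : ℝ} (ha : a ≠ 0) (b s l : ℝ) :
    volume {x : ℝ | a * x + b ∈ Set.Ico s (s + l)} = ENNReal.ofReal (l / |a|) := by
  have : {x : ℝ | a * x + b ∈ Set.Ico s (s + l)} = (fun x => a * x) ⁻¹' Set.Ico (s - b) (s - b + l) := by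
    ext x
    simp only [Set.mem_ofPred_eq, Set.mem_preimage, Set.mem_Ico]
    constructor <;> rintro ⟨h1, h2⟩ <;> constructor <;> linarith
  rw [this, Real.volume_preimage_mul_left ha, Real.volume_Ico, ← ENNReal.ofReal_mul (abs_nonneg _)]
  congr 1
  rw [abs_inv]
  field_simp
  ring

/-- the volume of a slab in a box -/
lemma volume_slab {d : ℕ} (a : Fin (d + 1) → ℝ) (j : Fin (d + 1)) (ha : a j ≠ 0) {M : ℝ} (hM : 0 ≤ M) (s l : ℝ)
    (hl : 0 ≤ l) : volume {α : Fin (d + 1) → ℝ | α ∈ Set.Icc (fun _ => -M) (fun _ => M) ∧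
      ∑ i, a i * α i ∈ Set.Ico s (s + l)} ≤ ENNReal.ofReal ((2 * M) ^ d * (l / |a j|)) := by
  set S : Set (Fin (d + 1) → ℝ) := {α | α ∈ Set.Icc (fun _ => -M) (fun _ => M) ∧ ∑ i, a i * α i ∈ Set.Ico s (s + l)} with hS
  have hSm : MeasurableSet S := by
    refine MeasurableSet.inter measurableSet_Icc ?_
    have : Measurable fun α : Fin (d + 1) → ℝ => ∑ i, a i * α i := by fun_prop
    exact this measurableSet_Ico
  have e := volume_preserving_piFinSuccAbove (fun _ : Fin (d + 1) => ℝ) j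
  have h1 : volume S = (volume.prod volume) ((MeasurableEquiv.piFinSuccAbove (fun _ : Fin (d + 1) => ℝ) j).symm ⁻¹' S) := by
    have e' := e.symm
    exact (e'.measure_preimage hSm.nullMeasurableSet).symm
  rw [h1, Measure.prod_apply_symm ((MeasurableEquiv.measurable _) hSm)]
  have h2 : ∀ y : Fin d → ℝ, volume ((fun x : ℝ => (x, y)) ⁻¹'
      ((MeasurableEquiv.piFinSuccAbove (fun _ : Fin (d + 1) => ℝ) j).symm ⁻¹' S)) ≤
      Set.indicator (Set.Icc (fun _ => -M) (fun _ => M)) (fun _ => ENNReal.ofReal (l / |a j|)) y := by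
    intro y
    by_cases hy : y ∈ Set.Icc (fun _ : Fin d => -M) (fun _ => M)
    · rw [Set.indicator_of_mem hy]
      rw [← volume_affine ha (∑ i, a (j.succAbove i) * y i) s l]
      refine measure_mono ?_
      intro x hx
      simp only [Set.mem_preimage, hS, Set.mem_ofPred_eq, MeasurableEquiv.piFinSuccAbove_symm_apply] at hx
      have h3 := hx.2
      rw [Fin.sum_univ_succAbove _ j] at h3
      simpa using h3
    · rw [Set.indicator_of_notMem hy]
      have : (fun x : ℝ => (x, y)) ⁻¹' ((MeasurableEquiv.piFinSuccAbove (fun _ : Fin (d + 1) => ℝ) j).symm ⁻¹' S) = ∅ := by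
        rw [Set.eq_empty_iff_forall_notMem]
        intro x hx
        simp only [Set.mem_preimage, hS, Set.mem_ofPred_eq, MeasurableEquiv.piFinSuccAbove_symm_apply] at hx
        apply hy
        refine ⟨fun i => ?_, fun i => ?_⟩
        · have := hx.1.1 (j.succAbove i)
          simpa using this
        · have := hx.1.2 (j.succAbove i)
          simpa using this
      rw [this, measure_empty]
  refine (lintegral_mono h2).trans ?_
  rw [lintegral_indicator_const measurableSet_Icc, Real.volume_Icc_pi]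
  simp only [sub_neg_eq_add, prod_const, card_univ, Fintype.card_fin]
  rw [← ENNReal.ofReal_pow (by positivity), ← ENNReal.ofReal_mul (by positivity)]
  refine ENNReal.ofReal_le_ofReal (le_of_eq ?_)
  rw [two_mul]
  ring

lemma summable_exp_rpow {δ : ℝ} (hδ : 0 < δ) : Summable fun n : ℕ => Real.exp ((n : ℝ) ^ (δ / 2) - (n : ℝ) ^ δ) := by
  have h1 : (fun x : ℝ => Real.exp (-(1 / 2) * x)) =o[atTop] fun x : ℝ => x ^ (-(2 / δ)) :=
    isLittleO_exp_neg_mul_rpow_atTop (by norm_num) _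
  have ht : Tendsto (fun n : ℕ => (n : ℝ) ^ δ) atTop atTop := (tendsto_rpow_atTop hδ).comp tendsto_natCast_atTop_atTop
  have ht2 : Tendsto (fun n : ℕ => (n : ℝ) ^ (δ / 2)) atTop atTop :=
    (tendsto_rpow_atTop (half_pos hδ)).comp tendsto_natCast_atTop_atTop
  have h2 := (h1.comp_tendsto ht).isBigO
  have h3 : (fun n : ℕ => Real.exp ((n : ℝ) ^ (δ / 2) - (n : ℝ) ^ δ)) =O[atTop]
      ((fun x : ℝ => Real.exp (-(1 / 2) * x)) ∘ fun n : ℕ => (n : ℝ) ^ δ) := by
    refine Asymptotics.IsBigO.of_bound 1 ?_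
    filter_upwards [ht2.eventually_ge_atTop 2] with n hn
    rw [Function.comp_apply, Real.norm_of_nonneg (Real.exp_pos _).le, Real.norm_of_nonneg (Real.exp_pos _).le, one_mul]
    refine Real.exp_le_exp.2 ?_
    have h4 : (n : ℝ) ^ δ = (n : ℝ) ^ (δ / 2) * (n : ℝ) ^ (δ / 2) := by
      rw [← Real.rpow_add_of_nonneg (Nat.cast_nonneg _) (half_pos hδ).le (half_pos hδ).le, add_halves]
    rw [h4]
    nlinarith
  refine summable_of_isBigO_nat (Real.summable_one_div_nat_pow.2 (one_lt_two)) ((h3.trans h2).congr_right fun n => ?_)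
  rw [Function.comp_apply, ← Real.rpow_mul (Nat.cast_nonneg _), mul_neg, mul_div_cancel₀ _ hδ.ne', Real.rpow_neg
    (Nat.cast_nonneg _), one_div, ← Real.rpow_natCast (n : ℝ) 2]
  norm_num

lemma exists_coord {d : ℕ} (b : Fin (d + 1) → ℝ) : ∃ j, |b j| = ‖b‖ := by
  obtain ⟨j, hj⟩ := Finite.exists_max (fun i => ‖b i‖)
  refine ⟨j, ?_⟩
  rw [← Real.norm_eq_abs]
  exact le_antisymm (norm_le_pi_norm b j) ((pi_norm_le_iff_of_nonneg (norm_nonneg _)).2 hj)

/-- the density of the values of a linear form -/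
lemma linear_density {d : ℕ} (b : Fin (d + 1) → ℝ) (hb : 1 ≤ ‖b‖) (M : ℕ) (k : ℤ) :
    (volume.restrict (Set.Icc (fun _ : Fin (d + 1) => -(M : ℝ)) (fun _ => (M : ℝ))))
      {α : Fin (d + 1) → ℝ | ⌊∑ i, b i * α i⌋ = k} ≤ ENNReal.ofReal ((2 * M) ^ d * ((d + 1) * M + 2) / (|(k : ℝ)| + 1)) := by
  have hset : {α : Fin (d + 1) → ℝ | ⌊∑ i, b i * α i⌋ = k} = {α : Fin (d + 1) → ℝ | ∑ i, b i * α i ∈ Set.Ico (k : ℝ) (k + 1)} := by
    ext α
    simp only [Set.mem_ofPred_eq, Int.floor_eq_iff, Set.mem_Ico]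
  rw [hset, Measure.restrict_apply' measurableSet_Icc]
  obtain ⟨j, hj⟩ := exists_coord b
  have hj0 : b j ≠ 0 := by
    intro h0
    rw [h0, abs_zero] at hj
    linarith
  by_cases hk : |(k : ℝ)| ≤ (d + 1) * ‖b‖ * M + 1
  · have h4 := volume_slab b j hj0 (Nat.cast_nonneg M) (k : ℝ) 1 zero_le_one
    refine le_trans (measure_mono ?_) (h4.trans (ENNReal.ofReal_le_ofReal ?_))
    · rintro α ⟨h5, h6⟩
      exact ⟨h6, h5⟩
    · rw [hj, mul_div_assoc]
      refine mul_le_mul_of_nonneg_left ?_ (by positivity)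
      rw [div_le_div_iff₀ (by linarith) (by positivity)]
      have h1 : (0 : ℝ) ≤ (d + 1) * M := by positivity
      have h2 : (1 : ℝ) * (|(k : ℝ)| + 1) ≤ (d + 1) * M * ‖b‖ + 2 := by linarith
      have h3 : (2 : ℝ) ≤ 2 * ‖b‖ := by linarith
      linarith
  · have h0 : {α : Fin (d + 1) → ℝ | ∑ i, b i * α i ∈ Set.Ico (k : ℝ) (k + 1)} ∩
        Set.Icc (fun _ : Fin (d + 1) => -(M : ℝ)) (fun _ => (M : ℝ)) = ∅ := by
      rw [Set.eq_empty_iff_forall_notMem]
      rintro α ⟨h5, h6⟩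
      apply hk
      have h7 : |∑ i, b i * α i| ≤ (d + 1) * ‖b‖ * M := by
        refine (Finset.abs_sum_le_sum_abs _ _).trans ?_
        calc ∑ i, |b i * α i| ≤ ∑ _i : Fin (d + 1), ‖b‖ * M := by
              refine Finset.sum_le_sum fun i _ => ?_
              rw [abs_mul]
              have h8 : |b i| ≤ ‖b‖ := by
                rw [← Real.norm_eq_abs]
                exact norm_le_pi_norm b i
              have h9 : |α i| ≤ M := abs_le.2 ⟨h6.1 i, h6.2 i⟩
              exact mul_le_mul h8 h9 (abs_nonneg _) (norm_nonneg _)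
          _ = _ := by
              rw [Finset.sum_const, card_univ, Fintype.card_fin, nsmul_eq_mul]
              push_cast
              ring
      have h9 : |(k : ℝ) - ∑ i, b i * α i| ≤ 1 := by
        have h10 : (k : ℝ) ≤ ∑ i, b i * α i := h5.1
        have h11 : ∑ i, b i * α i < k + 1 := h5.2
        rw [abs_le]
        constructor <;> linarith
      have h10 := abs_sub_abs_le_abs_sub (k : ℝ) (∑ i, b i * α i)
      linarith
    rw [h0, measure_empty]
    exact bot_le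

/-- small values of a linear form are improbable -/
lemma linear_small {d : ℕ} (b : Fin (d + 1) → ℝ) (hb : 0 < ‖b‖) (M : ℕ) {E : ℝ} (hE : 1 ≤ E) :
    (volume.restrict (Set.Icc (fun _ : Fin (d + 1) => -(M : ℝ)) (fun _ => (M : ℝ))))
      {α : Fin (d + 1) → ℝ | |((⌊∑ i, b i * α i⌋ : ℤ) : ℝ)| < E} ≤ ENNReal.ofReal ((2 * M) ^ d * 3 * (E / ‖b‖)) := by
  obtain ⟨j, hj⟩ := exists_coord b
  have hj0 : b j ≠ 0 := by
    intro h0
    rw [h0, abs_zero] at hj
    linarith
  have h4 := volume_slab b j hj0 (Nat.cast_nonneg M) (-E) (2 * E + 1) (by linarith)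
  have hsub : {α : Fin (d + 1) → ℝ | |((⌊∑ i, b i * α i⌋ : ℤ) : ℝ)| < E} ⊆
      {α : Fin (d + 1) → ℝ | ∑ i, b i * α i ∈ Set.Ico (-E) (-E + (2 * E + 1))} := by
    intro α hα
    have h5 := abs_lt.1 (show |((⌊∑ i, b i * α i⌋ : ℤ) : ℝ)| < E from hα)
    have h6 := Int.floor_le (∑ i, b i * α i)
    have h7 := Int.lt_floor_add_one (∑ i, b i * α i)
    refine ⟨?_, ?_⟩
    · linarith [h5.1]
    · linarith [h5.2]
  refine (measure_mono hsub).trans ?_
  rw [Measure.restrict_apply' measurableSet_Icc]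
  refine le_trans (measure_mono ?_) (h4.trans (ENNReal.ofReal_le_ofReal ?_))
  · rintro α ⟨h5, h6⟩
    exact ⟨h6, h5⟩
  · rw [hj, mul_assoc]
    refine mul_le_mul_of_nonneg_left ?_ (by positivity)
    rw [← mul_div_assoc]
    exact div_le_div_of_nonneg_right (by linarith) hb.le

/-- **Linear forms.** -/
theorem linear_eventually {P : ℤ → Prop} (h : AlmostAlways P) (d : ℕ) (a : ℕ → Fin d → ℝ) {δ : ℝ} (hδ : 0 < δ)
    (ha : ∀ᶠ n : ℕ in atTop, Real.exp ((n : ℝ) ^ δ) ≤ ‖a n‖) :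
    ∀ᵐ α : Fin d → ℝ, ∀ᶠ n in atTop, P ⌊∑ i, a n i * α i⌋ := by
  obtain ⟨n₀, hn₀⟩ := eventually_atTop.1 ha
  rcases d with _ | d
  · have h1 := hn₀ n₀ le_rfl
    have h2 : a n₀ = 0 := Subsingleton.elim _ _
    rw [h2, norm_zero] at h1
    exact absurd h1 (not_le.2 (Real.exp_pos _))
  obtain ⟨b, hb⟩ : ∃ b : ℕ → Fin (d + 1) → ℝ, ∀ n, b n = a (n + n₀) := ⟨_, fun _ => rfl⟩
  have hbn : ∀ n : ℕ, Real.exp ((n : ℝ) ^ δ) ≤ ‖b n‖ := fun n => by
    rw [hb]
    refine le_trans (Real.exp_le_exp.2 ?_) (hn₀ (n + n₀) (by omega))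
    refine Real.rpow_le_rpow (Nat.cast_nonneg _) ?_ hδ.le
    exact_mod_cast Nat.le_add_right n n₀
  have hb1 : ∀ n : ℕ, 1 ≤ ‖b n‖ := fun n => le_trans (Real.one_le_exp (by positivity)) (hbn n)
  have hM : ∀ M : ℕ, ∀ᵐ α ∂(volume.restrict (Set.Icc (fun _ : Fin (d + 1) => -(M : ℝ)) (fun _ => (M : ℝ)))),
      ∀ᶠ n in atTop, P ⌊∑ i, b n i * α i⌋ := by
    intro M
    refine random_eventually h _ (fun n (α : Fin (d + 1) → ℝ) => ⌊∑ i, b n i * α i⌋)
      (C := (2 * M) ^ d * ((d + 1) * M + 2)) (half_pos hδ) (fun n k => linear_density (b n) (hb1 n) M k) ?_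
    have hb2 : ∀ n : ℕ, (volume.restrict (Set.Icc (fun _ : Fin (d + 1) => -(M : ℝ)) (fun _ => (M : ℝ))))
        {α : Fin (d + 1) → ℝ | |((⌊∑ i, b n i * α i⌋ : ℤ) : ℝ)| < Real.exp ((n : ℝ) ^ (δ / 2))} ≤
        ENNReal.ofReal ((2 * M) ^ d * 3 * Real.exp ((n : ℝ) ^ (δ / 2) - (n : ℝ) ^ δ)) := by
      intro n
      refine (linear_small (b n) (by linarith [hb1 n]) M (Real.one_le_exp (by positivity))).trans
        (ENNReal.ofReal_le_ofReal ?_)
      refine mul_le_mul_of_nonneg_left ?_ (by positivity)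
      rw [Real.exp_sub]
      exact div_le_div_of_nonneg_left (Real.exp_pos _).le (Real.exp_pos _) (hbn n)
    refine ne_top_of_le_ne_top ?_ (ENNReal.tsum_le_tsum hb2)
    rw [← ENNReal.ofReal_tsum_of_nonneg (fun n => by positivity) ((summable_exp_rpow hδ).mul_left _)]
    exact ENNReal.ofReal_ne_top
  have h1 : ∀ M : ℕ, ∀ᵐ α : Fin (d + 1) → ℝ, α ∈ Set.Icc (fun _ : Fin (d + 1) => -(M : ℝ)) (fun _ => (M : ℝ)) →
      ∀ᶠ n in atTop, P ⌊∑ i, b n i * α i⌋ := fun M => (ae_restrict_iff' measurableSet_Icc).1 (hM M)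
  filter_upwards [ae_all_iff.2 h1] with α hα
  obtain ⟨M, hM'⟩ := exists_nat_ge ‖α‖
  have h3 : ∀ i, |α i| ≤ M := fun i => by
    rw [← Real.norm_eq_abs]
    exact (norm_le_pi_norm α i).trans hM'
  have h2 := hα M ⟨fun i => (abs_le.1 (h3 i)).1, fun i => (abs_le.1 (h3 i)).2⟩
  obtain ⟨N, hN⟩ := eventually_atTop.1 h2
  refine eventually_atTop.2 ⟨N + n₀, fun n hn => ?_⟩
  have h3 := hN (n - n₀) (by omega)
  rw [hb, Nat.sub_add_cancel (by omega)] at h3
  exact h3

end Pool.Agent.N918.MS
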