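import Pool.Agent.N918.MS.Base

/-! Random integers avoid sets with a saving of all powers of the logarithm (helper918): Borel–Cantelli. -/

set_option autoImplicit false

namespace Pool.Agent.N918.MS

open Finset MeasureTheory Filter
open scoped ENNReal Topology

/-- **Random integers with `log |X_n| ≥ n ^ δ`.** No independence is needed. -/
theorem random_eventually {P : ℤ → Prop} (h : AlmostAlways P) {Ω : Type} [MeasurableSpace Ω] (μ : Measure Ω)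
    (X : ℕ → Ω → ℤ) {C δ : ℝ} (hδ : 0 < δ) (hX : ∀ n (k : ℤ), μ {ω | X n ω = k} ≤ ENNReal.ofReal (C / (|(k : ℝ)| + 1)))
    (hs : ∑' n : ℕ, μ {ω | |(X n ω : ℝ)| < Real.exp ((n : ℝ) ^ δ)} ≠ ∞) :
    ∀ᵐ ω ∂μ, ∀ᶠ n in atTop, P (X n ω) := by
  set V : ℕ := ⌈2 / δ⌉₊ with hV
  have hVδ : 2 ≤ δ * V := by
    have : 2 / δ ≤ V := Nat.le_ceil _
    rw [div_le_iff₀ hδ] at this
    linarith
  obtain ⟨K, hK0, hK⟩ := tail h V C
  have hb : ∀ n : ℕ, μ {ω | ¬ P (X (n + 1) ω)} ≤ μ {ω | |(X (n + 1) ω : ℝ)| < Real.exp (((n + 1 : ℕ) : ℝ) ^ δ)} +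
      ENNReal.ofReal (K * (1 / ((n : ℝ) + 1) ^ 2)) := by
    intro n
    set j : ℕ := ⌊((n + 1 : ℕ) : ℝ) ^ δ⌋₊ with hj
    have hn0 : (0 : ℝ) ≤ ((n + 1 : ℕ) : ℝ) ^ δ := by positivity
    have h2 : (2 : ℝ) ^ j ≤ Real.exp (((n + 1 : ℕ) : ℝ) ^ δ) := by
      calc (2 : ℝ) ^ j ≤ Real.exp 1 ^ j := by
            gcongr
            have := Real.exp_one_gt_d9
            linarith
        _ = Real.exp j := by rw [← Real.exp_nat_mul, mul_one]
        _ ≤ _ := Real.exp_le_exp.2 (Nat.floor_le hn0)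
    have hsub : {ω | ¬ P (X (n + 1) ω)} ⊆ {ω | |(X (n + 1) ω : ℝ)| < Real.exp (((n + 1 : ℕ) : ℝ) ^ δ)} ∪
        {ω | ¬ P (X (n + 1) ω) ∧ (2 : ℝ) ^ j ≤ |(X (n + 1) ω : ℝ)|} := by
      intro ω hω
      by_cases h3 : |(X (n + 1) ω : ℝ)| < Real.exp (((n + 1 : ℕ) : ℝ) ^ δ)
      · exact Or.inl h3
      · exact Or.inr ⟨hω, h2.trans (not_lt.1 h3)⟩
    refine (measure_mono hsub).trans ((measure_union_le _ _).trans ?_)
    gcongr
    refine (hK μ (X (n + 1)) (hX (n + 1)) j).trans (ENNReal.ofReal_le_ofReal ?_)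
    have h5 : ((n + 1 : ℕ) : ℝ) ^ δ < j + 1 := Nat.lt_floor_add_one _
    have h8 : (1 : ℝ) ≤ ((n + 1 : ℕ) : ℝ) := by exact_mod_cast Nat.succ_le_succ (Nat.zero_le n)
    have h4 : ((n : ℝ) + 1) ^ 2 ≤ ((j : ℝ) + 1) ^ V := by
      calc ((n : ℝ) + 1) ^ 2 = ((n + 1 : ℕ) : ℝ) ^ (2 : ℝ) := by
            rw [← Real.rpow_natCast]; push_cast; rfl
        _ ≤ ((n + 1 : ℕ) : ℝ) ^ (δ * V) := Real.rpow_le_rpow_of_exponent_le h8 hVδ
        _ = (((n + 1 : ℕ) : ℝ) ^ δ) ^ V := by rw [Real.rpow_mul (by positivity), Real.rpow_natCast]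
        _ ≤ _ := by gcongr
    rw [mul_one_div]
    gcongr
  have hsum : ∑' n : ℕ, μ {ω | ¬ P (X (n + 1) ω)} ≠ ∞ := by
    refine ne_top_of_le_ne_top ?_ (ENNReal.tsum_le_tsum hb)
    rw [ENNReal.tsum_add]
    refine ENNReal.add_ne_top.2 ⟨?_, ?_⟩
    · refine ne_top_of_le_ne_top hs ?_
      exact ENNReal.tsum_comp_le_tsum_of_injective (f := fun n : ℕ => n + 1) (fun a b hab => by simpa using hab)
        (fun n : ℕ => μ {ω | |(X n ω : ℝ)| < Real.exp ((n : ℝ) ^ δ)})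
    · have h1 : Summable fun n : ℕ => K * (1 / ((n : ℝ) + 1) ^ 2) := by
        have := (summable_nat_add_iff 1).2 (Real.summable_one_div_nat_pow.2 (one_lt_two))
        refine Summable.mul_left _ ?_
        simpa using this
      rw [← ENNReal.ofReal_tsum_of_nonneg (fun n => by positivity) h1]
      exact ENNReal.ofReal_ne_top
  filter_upwards [ae_eventually_notMem hsum] with ω hω
  obtain ⟨N, hN⟩ := eventually_atTop.1 hω
  refine eventually_atTop.2 ⟨N + 1, fun n hn => ?_⟩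
  have := hN (n - 1) (by omega)
  simp only [not_not] at this
  rwa [Nat.sub_add_cancel (by omega)] at this

/-- **Random integers of polynomial growth.** All but `N / (log N) ^ U` of the first `N` have the property, for all `U`. -/
theorem random_density {P : ℤ → Prop} (h : AlmostAlways P) {Ω : Type} [MeasurableSpace Ω] (μ : Measure Ω)
    (X : ℕ → Ω → ℤ) (hXm : ∀ n, Measurable (X n)) {C δ : ℝ} (hδ : 0 < δ)
    (hX : ∀ n (k : ℤ), μ {ω | X n ω = k} ≤ ENNReal.ofReal (C / (|(k : ℝ)| + 1)))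
    (hs : ∀ N : ℕ, ∑ n ∈ range N, μ {ω | |(X n ω : ℝ)| < (N : ℝ) ^ δ} ≤ ENNReal.ofReal (C * (N : ℝ) ^ (1 - δ))) :
    ∀ᵐ ω ∂μ, ∀ U : ℕ, ∀ᶠ N : ℕ in atTop, ({n : ℕ | n < N ∧ ¬ P (X n ω)}.ncard : ℝ) ≤ N / Real.log N ^ U := by
  classical
  rw [ae_all_iff]
  intro U
  set V : ℕ := U + 2 with hV
  obtain ⟨K, hK0, hK⟩ := tail h V C
  set f : ℕ → Ω → ℝ≥0∞ := fun j ω => ∑ n ∈ range (2 ^ j), Set.indicator {ω | ¬ P (X n ω)} (fun _ => (1 : ℝ≥0∞)) ω with hf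
  have hms : ∀ n, MeasurableSet {ω | ¬ P (X n ω)} := fun n => hXm n (measurableSet_setOfPred.2 (Measurable.of_discrete) : MeasurableSet {k : ℤ | ¬ P k})
  have hint : ∀ j : ℕ, ∫⁻ ω, f j ω ∂μ ≤ ENNReal.ofReal (|C| * (2 : ℝ) ^ j * ((2 : ℝ) ^ (-δ)) ^ j +
      2 ^ j * (K / (⌊δ * j⌋₊ + 1) ^ V)) := by
    intro j
    rw [hf]
    simp only
    rw [lintegral_finsetSum _ (fun n _ => measurable_const.indicator (hms n))]
    have h1 : ∀ n ∈ range (2 ^ j), ∫⁻ ω, Set.indicator {ω | ¬ P (X n ω)} (fun _ => (1 : ℝ≥0∞)) ω ∂μ ≤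
        μ {ω | |(X n ω : ℝ)| < ((2 ^ j : ℕ) : ℝ) ^ δ} + ENNReal.ofReal (K / (⌊δ * j⌋₊ + 1) ^ V) := by
      intro n _
      rw [lintegral_indicator_const (hms n), one_mul]
      have h2 : (2 : ℝ) ^ ⌊δ * j⌋₊ ≤ ((2 ^ j : ℕ) : ℝ) ^ δ := by
        push_cast
        rw [← Real.rpow_natCast 2 j, ← Real.rpow_mul (by norm_num), ← Real.rpow_natCast]
        refine Real.rpow_le_rpow_of_exponent_le one_le_two ?_
        rw [mul_comm (j : ℝ) δ]
        exact Nat.floor_le (by positivity)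
      have hsub : {ω | ¬ P (X n ω)} ⊆ {ω | |(X n ω : ℝ)| < ((2 ^ j : ℕ) : ℝ) ^ δ} ∪
          {ω | ¬ P (X n ω) ∧ (2 : ℝ) ^ ⌊δ * j⌋₊ ≤ |(X n ω : ℝ)|} := by
        intro ω hω
        by_cases h3 : |(X n ω : ℝ)| < ((2 ^ j : ℕ) : ℝ) ^ δ
        · exact Or.inl h3
        · exact Or.inr ⟨hω, h2.trans (not_lt.1 h3)⟩
      refine (measure_mono hsub).trans ((measure_union_le _ _).trans ?_)
      gcongr
      exact hK μ (X n) (hX n) _
    refine (Finset.sum_le_sum h1).trans ?_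
    rw [Finset.sum_add_distrib, Finset.sum_const, card_range, nsmul_eq_mul]
    rw [ENNReal.ofReal_add (by positivity) (by positivity), ENNReal.ofReal_mul (p := (2 : ℝ) ^ j) (by positivity)]
    have h5 : ((2 ^ j : ℕ) : ℝ≥0∞) = ENNReal.ofReal ((2 : ℝ) ^ j) := by
      rw [← ENNReal.ofReal_natCast]; push_cast; rfl
    rw [h5]
    gcongr
    refine (hs (2 ^ j)).trans (ENNReal.ofReal_le_ofReal ?_)
    have h6 : ((2 ^ j : ℕ) : ℝ) ^ (1 - δ) = (2 : ℝ) ^ j * ((2 : ℝ) ^ (-δ)) ^ j := by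
      push_cast
      rw [← mul_pow, ← Real.rpow_natCast 2 j, ← Real.rpow_mul (by norm_num), mul_comm (j : ℝ), Real.rpow_mul (by norm_num),
        Real.rpow_natCast, sub_eq_add_neg, Real.rpow_add (by norm_num), Real.rpow_one]
    rw [h6, ← mul_assoc]
    gcongr
    exact le_abs_self C
  set t : ℕ → ℝ := fun j => (2 : ℝ) ^ j / (2 * (j + 1) ^ U) with ht
  have htpos : ∀ j, 0 < t j := fun j => by simp only [ht]; positivity
  set c : ℝ := δ / (1 + δ) with hc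
  have hc0 : 0 < c := by positivity
  have hmk : ∀ j : ℕ, μ {ω | ENNReal.ofReal (t j) ≤ f j ω} ≤ ENNReal.ofReal (2 * |C| * (((j : ℝ) + 1) ^ U *
      ((2 : ℝ) ^ (-δ)) ^ j) + 2 * K / c ^ V * (1 / ((j : ℝ) + 1) ^ 2)) := by
    intro j
    have hfm : Measurable (f j) := by
      rw [hf]
      exact Finset.measurable_sum _ fun n _ => measurable_const.indicator (hms n)
    have h1 := mul_meas_ge_le_lintegral hfm (ENNReal.ofReal (t j)) (μ := μ)
    have h2 := h1.trans (hint j)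
    have h3 : μ {ω | ENNReal.ofReal (t j) ≤ f j ω} ≤ ENNReal.ofReal (|C| * (2 : ℝ) ^ j * ((2 : ℝ) ^ (-δ)) ^ j +
      2 ^ j * (K / (⌊δ * j⌋₊ + 1) ^ V)) / ENNReal.ofReal (t j) := by
      rw [ENNReal.le_div_iff_mul_le (Or.inl (by simpa using htpos j)) (Or.inl ENNReal.ofReal_ne_top), mul_comm]
      exact h2
    refine h3.trans ?_
    rw [← ENNReal.ofReal_div_of_pos (htpos j)]
    refine ENNReal.ofReal_le_ofReal ?_
    have h4 : c * ((j : ℝ) + 1) ≤ ⌊δ * j⌋₊ + 1 := by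
      have h5 : δ * j < ⌊δ * j⌋₊ + 1 := Nat.lt_floor_add_one _
      have h6 : (0 : ℝ) ≤ ⌊δ * j⌋₊ := Nat.cast_nonneg _
      rw [hc, div_mul_eq_mul_div, div_le_iff₀ (by positivity)]
      nlinarith
    have h7 : K / ((⌊δ * j⌋₊ : ℝ) + 1) ^ V ≤ K / (c ^ V * ((j : ℝ) + 1) ^ V) := by
      rw [← mul_pow]
      gcongr
    rw [div_le_iff₀ (htpos j)]
    have h8 : (2 * |C| * (((j : ℝ) + 1) ^ U * ((2 : ℝ) ^ (-δ)) ^ j) + 2 * K / c ^ V * (1 / ((j : ℝ) + 1) ^ 2)) * t j =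
        |C| * (2 : ℝ) ^ j * ((2 : ℝ) ^ (-δ)) ^ j + 2 ^ j * (K / (c ^ V * ((j : ℝ) + 1) ^ V)) := by
      simp only [ht, hV]
      rw [pow_add _ U 2]
      field_simp
      ring
    rw [h8]
    gcongr
  have hsummable : Summable fun j : ℕ => 2 * |C| * (((j : ℝ) + 1) ^ U * ((2 : ℝ) ^ (-δ)) ^ j) +
      2 * K / c ^ V * (1 / ((j : ℝ) + 1) ^ 2) := by
    have hr0 : (0 : ℝ) < (2 : ℝ) ^ (-δ) := by positivity
    have hr1 : (2 : ℝ) ^ (-δ) < 1 := Real.rpow_lt_one_of_one_lt_of_neg one_lt_two (by linarith)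
    refine Summable.add (Summable.mul_left _ ?_) (Summable.mul_left _ ?_)
    · have h1 := summable_pow_mul_geometric_of_norm_lt_one U (r := (2 : ℝ) ^ (-δ)) (by
        rw [Real.norm_of_nonneg hr0.le]; exact hr1)
      have h2 := (summable_nat_add_iff 1).2 h1
      have h3 := h2.mul_left ((2 : ℝ) ^ (-δ))⁻¹
      refine h3.congr fun j => ?_
      push_cast
      rw [pow_succ]
      field_simp
    · have := (summable_nat_add_iff 1).2 (Real.summable_one_div_nat_pow.2 (one_lt_two))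
      simpa using this
  have hsum : ∑' j : ℕ, μ {ω | ENNReal.ofReal (t j) ≤ f j ω} ≠ ∞ := by
    refine ne_top_of_le_ne_top ?_ (ENNReal.tsum_le_tsum hmk)
    rw [← ENNReal.ofReal_tsum_of_nonneg (fun j => by positivity) hsummable]
    exact ENNReal.ofReal_ne_top
  filter_upwards [ae_eventually_notMem hsum] with ω hω
  obtain ⟨J, hJ⟩ := eventually_atTop.1 hω
  refine eventually_atTop.2 ⟨2 ^ (J + 1), fun N hN => ?_⟩
  have hN1 : 2 ≤ N := le_trans (by rw [pow_succ]; have := Nat.one_le_two_pow (n := J); omega) hN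
  set j : ℕ := Nat.log 2 N with hj
  have hjN : 2 ^ j ≤ N := Nat.pow_log_le_self 2 (by omega)
  have hNj : N < 2 ^ (j + 1) := Nat.lt_pow_succ_log_self (by norm_num) N
  have hJj : J + 1 ≤ j := Nat.le_log_of_pow_le (by norm_num) hN
  have h1 := hJ (j + 1) (by omega)
  simp only [not_le] at h1
  have h2 : f (j + 1) ω = ((#{n ∈ range (2 ^ (j + 1)) | ¬ P (X n ω)} : ℕ) : ℝ≥0∞) := by
    simp only [hf, Set.indicator_apply, Set.mem_ofPred_eq]
    rw [Finset.sum_boole]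
  rw [h2, ← ENNReal.ofReal_natCast, ENNReal.ofReal_lt_ofReal_iff (htpos _)] at h1
  have h3 : ({n : ℕ | n < N ∧ ¬ P (X n ω)}.ncard : ℝ) ≤ (#{n ∈ range (2 ^ (j + 1)) | ¬ P (X n ω)} : ℕ) := by
    have : {n : ℕ | n < N ∧ ¬ P (X n ω)}.ncard ≤ ((({n ∈ range (2 ^ (j + 1)) | ¬ P (X n ω)} : Finset ℕ) : Set ℕ)).ncard := by
      refine Set.ncard_le_ncard ?_ (Finset.finite_toSet _)
      rintro n ⟨hn1, hn2⟩
      simp only [Finset.coe_filter, Finset.mem_range, Set.mem_ofPred_eq]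
      exact ⟨hn1.trans hNj, hn2⟩
    rw [Set.ncard_coe_finset] at this
    exact_mod_cast this
  refine h3.trans (h1.le.trans ?_)
  simp only [ht]
  have hlogpos : 0 < Real.log N := Real.log_pos (by exact_mod_cast hN1)
  have hlog : Real.log N ≤ ((j + 1 : ℕ) : ℝ) + 1 := by
    have h4 : Real.log N ≤ Real.log ((2 : ℝ) ^ (j + 1)) := by
      refine Real.log_le_log (by exact_mod_cast (by omega : 0 < N)) ?_
      exact_mod_cast hNj.le
    rw [Real.log_pow] at h4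
    have h5 : Real.log 2 ≤ 1 := by
      have := Real.log_two_lt_d9
      linarith
    have h6 : (0 : ℝ) ≤ ((j + 1 : ℕ) : ℝ) := Nat.cast_nonneg _
    nlinarith
  have hjN' : (2 : ℝ) ^ j ≤ N := by exact_mod_cast hjN
  calc (2 : ℝ) ^ (j + 1) / (2 * (((j + 1 : ℕ) : ℝ) + 1) ^ U) = (2 : ℝ) ^ j / ((((j + 1 : ℕ) : ℝ) + 1) ^ U) := by
        rw [pow_succ]
        field_simp
    _ ≤ N / Real.log N ^ U := by gcongr

end Pool.Agent.N918.MS
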